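import Pool.Agent.Lib.MP_e54d61_gt.Abs.Defs

/-!
# MP_e54d61_gt, Abs, Bav: quasimorphisms and products of commutators (helper46)
-/

set_option autoImplicit false

namespace Pool.Agent.MPe54d61.Abs

variable {G : Type*} [Group G]

theorem PrC.one : PrC 0 (1 : G) := ⟨[], rfl, fun s hs => by simp at hs, rfl⟩

theorem PrC.mul {n m : ℕ} {g h : G} (hg : PrC n g) (hh : PrC m h) : PrC (n + m) (g * h) := by
  obtain ⟨l, h1, h2, h3⟩ := hg
  obtain ⟨l', h1', h2', h3'⟩ := hh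
  refine ⟨l ++ l', ?_, ?_, ?_⟩
  · rw [List.length_append, h1, h1']
  · intro s hs
    rcases List.mem_append.1 hs with h | h
    · exact h2 s h
    · exact h2' s h
  · rw [List.prod_append, h3, h3']

theorem PrC.pow {n : ℕ} {g : G} (hg : PrC n g) (k : ℕ) : PrC (k * n) (g ^ k) := by
  induction k with
  | zero =>
    rw [Nat.zero_mul, pow_zero]
    exact PrC.one
  | succ k ih =>
    rw [Nat.succ_mul, pow_succ]
    exact ih.mul hg

/-- quasimorphisms are linearly bounded on products of commutators -/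
theorem qm_comm {φ : G → ℤ} {D : ℕ} (hφ : ∀ g h, |φ (g * h) - φ g - φ h| ≤ D) {k : ℕ} {h : G}
    (hk : PrC k h) : |φ h| ≤ 8 * D * k + D := by
  have h1 : |φ 1| ≤ D := by
    have := hφ 1 1
    rw [mul_one, abs_le] at this
    rw [abs_le]
    constructor <;> linarith [this.1, this.2]
  have hinv : ∀ a : G, |φ a + φ a⁻¹| ≤ 2 * D := by
    intro a
    have h2 := hφ a a⁻¹
    rw [mul_inv_cancel] at h2
    rw [abs_le] at h1 h2 ⊢
    constructor <;> linarith [h1.1, h1.2, h2.1, h2.2]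
  have hcom : ∀ a b : G, |φ (a * b * a⁻¹ * b⁻¹)| ≤ 7 * D := by
    intro a b
    have e1 := hφ (a * b * a⁻¹) b⁻¹
    have e2 := hφ (a * b) a⁻¹
    have e3 := hφ a b
    have e4 := hinv a
    have e5 := hinv b
    rw [abs_le] at e1 e2 e3 e4 e5 ⊢
    constructor <;> linarith [e1.1, e1.2, e2.1, e2.2, e3.1, e3.2, e4.1, e4.2, e5.1, e5.2]
  obtain ⟨l, hl, hs, hp⟩ := hk
  subst hp
  subst hl
  induction l with
  | nil =>
    rw [List.prod_nil]
    simpa using h1
  | cons s l ih =>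
    have h2 := ih (fun t ht => hs t (List.mem_cons_of_mem _ ht))
    obtain ⟨a, b, hab⟩ := hs s List.mem_cons_self
    have h3 := hcom a b
    rw [← hab] at h3
    have h4 := hφ s l.prod
    rw [List.prod_cons, List.length_cons]
    push_cast
    rw [abs_le] at h2 h3 h4 ⊢
    constructor <;> linarith [h2.1, h2.2, h3.1, h3.2, h4.1, h4.2]

/-- if a quasimorphism is unbounded on the powers of `f ^ m` (linearly) then `scl f` is positive -/
theorem not_sclZ {φ : G → ℤ} {D : ℕ} (hφ : ∀ g h, |φ (g * h) - φ g - φ h| ≤ D) {f : G} {m : ℕ}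
    (h : ∀ n : ℕ, (n : ℤ) ≤ |φ ((f ^ m) ^ n)|) : ¬ SclZ f := by
  intro hs
  obtain ⟨n, k, hn, hk, hp⟩ := hs (1 / (16 * ((D : ℝ) + 1) * (m + 1))) (by positivity)
  have key : ∀ t : ℕ, ((n * t : ℕ) : ℤ) ≤ 8 * D * ((t * (m * k) : ℕ) : ℤ) + D := by
    intro t
    have h1 := (hp.pow m).pow t
    have h2 : ((f ^ n) ^ m) ^ t = (f ^ m) ^ (n * t) := by
      rw [← pow_mul, ← pow_mul, ← pow_mul]
      congr 1
      ring
    rw [h2] at h1
    exact (h (n * t)).trans (qm_comm hφ h1)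
  have h1 := key (2 * D + 1)
  have h2 : ((n * (2 * D + 1) : ℕ) : ℝ) ≤ 8 * D * (((2 * D + 1) * (m * k) : ℕ) : ℝ) + D := by
    exact_mod_cast h1
  push_cast at h2
  have hn' : (1 : ℝ) ≤ n := by exact_mod_cast hn
  have hD : (0 : ℝ) ≤ D := Nat.cast_nonneg D
  have hm : (0 : ℝ) ≤ m := Nat.cast_nonneg m
  have h3 : (k : ℝ) * (16 * ((D : ℝ) + 1) * (m + 1)) ≤ n := by
    have h4 : (0 : ℝ) < 16 * ((D : ℝ) + 1) * (m + 1) := by positivity
    have h5 := mul_le_mul_of_nonneg_right hk h4.le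
    have h6 : 1 / (16 * ((D : ℝ) + 1) * (m + 1)) * n * (16 * ((D : ℝ) + 1) * (m + 1)) = n := by
      field_simp
    rwa [h6] at h5
  have hk0 : (0 : ℝ) ≤ k := Nat.cast_nonneg k
  have h4 : 16 * (D * (m * k)) ≤ (n : ℝ) := by
    refine le_trans ?_ h3
    have : (k : ℝ) * (16 * ((D : ℝ) + 1) * (m + 1)) = 16 * (D * (m * k)) + 16 * (k * (D + m + 1)) := by
      ring
    rw [this]
    have : (0 : ℝ) ≤ 16 * (k * (D + m + 1)) := by positivity
    linarith
  have h5 : 8 * (D : ℝ) * ((2 * D + 1) * (m * k)) ≤ n * (2 * D + 1) / 2 := by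
    have := mul_le_mul_of_nonneg_right h4 (show (0 : ℝ) ≤ (2 * D + 1) / 2 by positivity)
    calc 8 * (D : ℝ) * ((2 * D + 1) * (m * k)) = 16 * (D * (m * k)) * ((2 * D + 1) / 2) := by ring
      _ ≤ n * ((2 * D + 1) / 2) := this
      _ = n * (2 * D + 1) / 2 := by ring
  have h6 : (2 * (D : ℝ) + 1) ≤ n * (2 * D + 1) := le_mul_of_one_le_left (by positivity) hn'
  linarith

end Pool.Agent.MPe54d61.Abs
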