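import Pool.Agent.Lib.MP_e54d61_gt.Abs.Geo

/-!
# MP_e54d61_gt, Abs, Chain: chains and the paths which realize them (helper46)
-/

set_option autoImplicit false

namespace Pool.Agent.MPe54d61.Abs

variable {X : Type*} {d : X → X → ℕ} {G : Type*} [Group G] [MulAction G X] {w0 w1 : X} {κ : ℕ}

theorem Ch.trans {x y z : X} {n m : ℕ} (h : Ch G d w0 w1 κ x y n) (h' : Ch G d w0 w1 κ y z m) :
    Ch G d w0 w1 κ x z (n + m) := by
  induction h' with
  | refl => exact h
  | step _ h2 ih => exact Ch.step ih h2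
  | jump g _ ih =>
    rw [← Nat.add_assoc]
    exact Ch.jump g ih

theorem Ch.smul (hI : Inv G d) {x y : X} {n : ℕ} (h : Ch G d w0 w1 κ x y n) (g : G) :
    Ch G d w0 w1 κ (g • x) (g • y) n := by
  induction h with
  | refl => exact Ch.refl
  | step _ h2 ih =>
    refine Ch.step ih ?_
    rw [hI]
    exact h2
  | jump g' _ ih =>
    rw [← mul_smul] at ih ⊢
    exact Ch.jump (g * g') ih

/-- paths are chains -/
theorem Ch.path {N : ℕ} (p : ℕ → X) (hs : ∀ i < N, d (p i) (p (i + 1)) ≤ 1) (i : ℕ) :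
    ∀ k, i + k ≤ N → Ch G d w0 w1 κ (p i) (p (i + k)) k := by
  intro k
  induction k with
  | zero => exact fun _ => Ch.refl
  | succ k ih => exact fun hk => Ch.step (ih (by omega)) (hs (i + k) (by omega))

theorem Ch.dist (hd : GM d) (x y : X) : Ch G d w0 w1 κ x y (d x y) := by
  obtain ⟨γ, h0, h1, h2⟩ := hd.geo x y
  have h := Ch.path (G := G) (w0 := w0) (w1 := w1) (κ := κ) γ h2 0 (d x y) (by omega)
  rw [Nat.zero_add, h0, h1] at h
  exact h

theorem dw_le {x y : X} {n : ℕ} (h : Ch G d w0 w1 κ x y n) : dw G d w0 w1 κ x y ≤ n :=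
  Nat.sInf_le h

theorem dw_ch (hd : GM d) (x y : X) : Ch G d w0 w1 κ x y (dw G d w0 w1 κ x y) :=
  Nat.sInf_mem (s := {n | Ch G d w0 w1 κ x y n}) ⟨_, Ch.dist hd x y⟩

theorem dw_le_d (hd : GM d) (x y : X) : dw G d w0 w1 κ x y ≤ d x y :=
  dw_le (Ch.dist hd x y)

theorem dw_tri (hd : GM d) (x y z : X) :
    dw G d w0 w1 κ x z ≤ dw G d w0 w1 κ x y + dw G d w0 w1 κ y z :=
  dw_le ((dw_ch hd x y).trans (dw_ch hd y z))

theorem dw_smul (hd : GM d) (hI : Inv G d) (g : G) (x y : X) :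
    dw G d w0 w1 κ (g • x) (g • y) = dw G d w0 w1 κ x y := by
  apply le_antisymm
  · exact dw_le ((dw_ch hd x y).smul hI g)
  · have h := (dw_ch (G := G) (w0 := w0) (w1 := w1) (κ := κ) hd (g • x) (g • y)).smul hI g⁻¹
    rw [inv_smul_smul, inv_smul_smul] at h
    exact dw_le h

/-- the path `p` with `N` steps realizes the chain of cost `n`; `u i` is the cost up to `p i` -/
structure RD (G : Type*) [Group G] [MulAction G X] (d : X → X → ℕ) (w0 w1 : X) (κ : ℕ) (x y : X)
    (n N : ℕ) (p : ℕ → X) (u : ℕ → ℕ) : Prop where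
  p0 : p 0 = x
  pN : p N = y
  uN : u N = n
  st : ∀ i < N, d (p i) (p (i + 1)) ≤ 1
  a1 : ∀ i ≤ N, ∃ m ≤ u i + κ, Ch G d w0 w1 κ x (p i) m
  a2 : ∀ i ≤ N, ∃ m, m + u i ≤ n + κ ∧ Ch G d w0 w1 κ (p i) y m
  b : ∀ i j, i ≤ j → j ≤ N → j + 2 * u i ≤ i + 2 * u j + κ

/-- extension of a path by a segment -/
theorem RD.ext {x y z : X} {n N : ℕ} {p : ℕ → X} {u : ℕ → ℕ} (h : RD G d w0 w1 κ x y n N p u)
    {l c : ℕ} (γ : ℕ → X) (v : ℕ → ℕ) (hxy : Ch G d w0 w1 κ x y n) (hyz : Ch G d w0 w1 κ y z c)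
    (g0 : γ 0 = y) (gl : γ l = z) (v0 : v 0 = 0) (vl : v l = c) (gs : ∀ i < l, d (γ i) (γ (i + 1)) ≤ 1)
    (s1 : ∀ k ≤ l, ∃ m ≤ v k + κ, Ch G d w0 w1 κ y (γ k) m)
    (s2 : ∀ k ≤ l, ∃ m, m + v k ≤ c + κ ∧ Ch G d w0 w1 κ (γ k) z m)
    (s3 : ∀ k ≤ l, k ≤ 2 * v k)
    (s4 : ∀ k k', k ≤ k' → k' ≤ l → k' + 2 * v k ≤ k + 2 * v k' + κ) :
    ∃ (p' : ℕ → X) (u' : ℕ → ℕ), RD G d w0 w1 κ x z (n + c) (N + l) p' u' ∧
      (∀ i ≤ N, p' i = p i) ∧ ∀ k, p' (N + k) = γ k := by
  classical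
  obtain ⟨p', hp'⟩ : ∃ p' : ℕ → X, p' = fun i => if i ≤ N then p i else γ (i - N) := ⟨_, rfl⟩
  obtain ⟨u', hu'⟩ : ∃ u' : ℕ → ℕ, u' = fun i => if i ≤ N then u i else n + v (i - N) := ⟨_, rfl⟩
  have hp1 : ∀ i ≤ N, p' i = p i := by
    intro i hi
    rw [hp']
    exact if_pos hi
  have hu1 : ∀ i ≤ N, u' i = u i := by
    intro i hi
    rw [hu']
    exact if_pos hi
  have hp2 : ∀ k, p' (N + k) = γ k := by
    intro k
    rcases Nat.eq_zero_or_pos k with hk | hk
    · rw [hk, Nat.add_zero, hp1 N le_rfl, h.pN, g0]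
    · rw [hp']
      show (if N + k ≤ N then p (N + k) else γ (N + k - N)) = γ k
      rw [if_neg (by omega), Nat.add_sub_cancel_left]
  have hu2 : ∀ k, u' (N + k) = n + v k := by
    intro k
    rcases Nat.eq_zero_or_pos k with hk | hk
    · rw [hk, Nat.add_zero, hu1 N le_rfl, h.uN, v0, Nat.add_zero]
    · rw [hu']
      show (if N + k ≤ N then u (N + k) else n + v (N + k - N)) = n + v k
      rw [if_neg (by omega), Nat.add_sub_cancel_left]
  refine ⟨p', u', ⟨?_, ?_, ?_, ?_, ?_, ?_, ?_⟩, hp1, hp2⟩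
  · rw [hp1 0 (Nat.zero_le N)]
    exact h.p0
  · rw [hp2, gl]
  · rw [hu2, vl]
  · intro i hi
    rcases Nat.lt_or_ge i N with h1 | h1
    · rw [hp1 i h1.le, hp1 (i + 1) h1]
      exact h.st i h1
    · obtain ⟨k, rfl⟩ := Nat.exists_eq_add_of_le h1
      rw [Nat.add_assoc, hp2, hp2]
      exact gs k (by omega)
  · intro i hi
    rcases Nat.le_total i N with h1 | h1
    · rw [hp1 i h1, hu1 i h1]
      exact h.a1 i h1
    · obtain ⟨k, rfl⟩ := Nat.exists_eq_add_of_le h1
      rw [hp2, hu2]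
      obtain ⟨m, hm1, hm2⟩ := s1 k (by omega)
      exact ⟨n + m, by omega, hxy.trans hm2⟩
  · intro i hi
    rcases Nat.le_total i N with h1 | h1
    · rw [hp1 i h1, hu1 i h1]
      obtain ⟨m, hm1, hm2⟩ := h.a2 i h1
      exact ⟨m + c, by omega, hm2.trans hyz⟩
    · obtain ⟨k, rfl⟩ := Nat.exists_eq_add_of_le h1
      rw [hp2, hu2]
      obtain ⟨m, hm1, hm2⟩ := s2 k (by omega)
      exact ⟨m, by omega, hm2⟩
  · intro i j hij hj
    rcases Nat.le_total j N with h1 | h1
    · rw [hu1 i (by omega), hu1 j h1]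
      exact h.b i j hij h1
    · obtain ⟨k', rfl⟩ := Nat.exists_eq_add_of_le h1
      rw [hu2]
      rcases Nat.le_total i N with h2 | h2
      · rw [hu1 i h2]
        have g1 := h.b i N h2 le_rfl
        have g2 := s3 k' (by omega)
        have g3 := h.uN
        omega
      · obtain ⟨k, rfl⟩ := Nat.exists_eq_add_of_le h2
        rw [hu2]
        have g1 := s4 k k' (by omega) (by omega)
        omega

/-- every chain is realized by a path; the path contains a translate of `w0, w1`, or the cost is at least the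
distance -/
theorem real (hd : GM d) (hI : Inv G d) (hκ : 2 * κ ≤ d w0 w1) {x y : X} {n : ℕ}
    (h : Ch G d w0 w1 κ x y n) : ∃ (N : ℕ) (p : ℕ → X) (u : ℕ → ℕ), RD G d w0 w1 κ x y n N p u ∧
      (d x y ≤ n ∨ ∃ (s : ℕ) (g : G), s + d w0 w1 ≤ N ∧ p s = g • w0 ∧
        p (s + d w0 w1) = g • w1) := by
  induction h with
  | refl =>
    refine ⟨0, fun _ => x, fun _ => 0, ⟨rfl, rfl, rfl, ?_, ?_, ?_, ?_⟩, Or.inl ?_⟩
    · exact fun i hi => absurd hi (Nat.not_lt_zero i)
    · exact fun i _ => ⟨0, Nat.zero_le _, Ch.refl⟩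
    · exact fun i _ => ⟨0, by omega, Ch.refl⟩
    · intro i j _ _
      omega
    · rw [hd.self]
  | @step y z n h1 h2 ih =>
    obtain ⟨N, p, u, hRD, hj⟩ := ih
    have hyz : Ch G d w0 w1 κ y z 1 := Ch.step Ch.refl h2
    obtain ⟨p', u', hRD', hp1, hp2⟩ := hRD.ext (l := 1) (c := 1) (fun i => if i = 0 then y else z)
      (fun i => i) h1 hyz (if_pos rfl) (if_neg one_ne_zero) rfl rfl (by
        intro i hi
        have hi0 : i = 0 := by omega
        subst hi0
        exact h2) (by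
        intro k hk
        rcases Nat.eq_zero_or_pos k with hk0 | hk0
        · subst hk0
          exact ⟨0, Nat.zero_le _, Ch.refl⟩
        · have hk1 : k = 1 := by omega
          subst hk1
          exact ⟨1, by omega, hyz⟩) (by
        intro k hk
        rcases Nat.eq_zero_or_pos k with hk0 | hk0
        · subst hk0
          exact ⟨1, by omega, hyz⟩
        · have hk1 : k = 1 := by omega
          subst hk1
          exact ⟨0, by omega, Ch.refl⟩) (by
        intro k hk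
        show k ≤ 2 * k
        omega) (by
        intro k k' hk hk'
        show k' + 2 * k ≤ k + 2 * k' + κ
        omega)
    refine ⟨N + 1, p', u', hRD', ?_⟩
    rcases hj with hj | ⟨s, g, hs1, hs2, hs3⟩
    · left
      have := hd.tri x y z
      omega
    · right
      refine ⟨s, g, by omega, ?_, ?_⟩
      · rw [hp1 s (by omega)]
        exact hs2
      · rw [hp1 _ hs1]
        exact hs3
  | @jump n g h1 ih =>
    obtain ⟨N, p, u, hRD, -⟩ := ih
    obtain ⟨γ, e0, e1, e2⟩ := hd.geo w0 w1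
    obtain ⟨l, hl⟩ : ∃ l, l = d w0 w1 := ⟨_, rfl⟩
    rw [← hl] at hκ e1 e2 ⊢
    have hyz : Ch G d w0 w1 κ (g • w0) (g • w1) (l - κ) := by
      have h := Ch.jump (G := G) (d := d) (w0 := w0) (w1 := w1) (κ := κ) g
        (Ch.refl (x := g • w0))
      rw [Nat.zero_add, ← hl] at h
      exact h
    have hst : ∀ i < l, d (g • γ i) (g • γ (i + 1)) ≤ 1 := by
      intro i hi
      rw [hI]
      exact e2 i hi
    have hpa := fun i k hik => Ch.path (G := G) (w0 := w0) (w1 := w1) (κ := κ) (N := l)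
      (fun i => g • γ i) hst i k hik
    obtain ⟨p', u', hRD', hp1, hp2⟩ := hRD.ext (l := l) (c := l - κ) (fun i => g • γ i)
      (fun i => min i (l - κ)) h1 hyz (by show g • γ 0 = g • w0; rw [e0])
      (by show g • γ l = g • w1; rw [e1]) (by show min 0 (l - κ) = 0; omega)
      (by show min l (l - κ) = l - κ; omega) hst (by
        intro k hk
        refine ⟨k, ?_, ?_⟩
        · show k ≤ min k (l - κ) + κ
          omega
        · have h := hpa 0 k (by omega)
          rw [Nat.zero_add] at h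
          have h' : Ch G d w0 w1 κ (g • γ 0) (g • γ k) k := h
          rw [e0] at h'
          exact h') (by
        intro k hk
        refine ⟨l - k, ?_, ?_⟩
        · show l - k + min k (l - κ) ≤ l - κ + κ
          omega
        · have h := hpa k (l - k) (by omega)
          rw [show k + (l - k) = l by omega] at h
          have h' : Ch G d w0 w1 κ (g • γ k) (g • γ l) (l - k) := h
          rw [e1] at h'
          exact h') (by
        intro k hk
        show k ≤ 2 * min k (l - κ)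
        omega) (by
        intro k k' hk hk'
        show k' + 2 * min k (l - κ) ≤ k + 2 * min k' (l - κ) + κ
        omega)
    refine ⟨N + l, p', u', hRD', Or.inr ⟨N, g, le_rfl, ?_, ?_⟩⟩
    · have h := hp2 0
      rw [Nat.add_zero] at h
      rw [h]
      show g • γ 0 = g • w0
      rw [e0]
    · rw [hp2 l]
      show g • γ l = g • w1
      rw [e1]

/-- optimal chains are quasi-geodesics -/
theorem RD.qg (hd : GM d) {x y : X} {N : ℕ} {p : ℕ → X} {u : ℕ → ℕ}
    (h : RD G d w0 w1 κ x y (dw G d w0 w1 κ x y) N p u) (i j : ℕ) (hij : i ≤ j) (hj : j ≤ N) :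
    j ≤ i + 2 * d (p i) (p j) + 5 * κ := by
  obtain ⟨m1, hm1, hc1⟩ := h.a1 i (by omega)
  obtain ⟨m2, hm2, hc2⟩ := h.a2 j hj
  have h1 := dw_le ((hc1.trans (Ch.dist hd (p i) (p j))).trans hc2)
  have h2 := h.b i j hij hj
  omega

end Pool.Agent.MPe54d61.Abs
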