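import Mathlib

/-!
# MP_e54d61_gt, Abs: groups acting on hyperbolic graphs, definitions (helper46)

`d : X → X → ℕ` is a graph metric on `X`, hyperbolic in the sense of the four-point condition.  For points
`x, y` the coordinate of `p` along `x, y` and its height above `x, y` (both multiplied with two) are

* `cP d x y p = d x p + d x y - d p y` (twice the Gromov product `(y | p)_x`),
* `cH d x y p = d x p + d p y - d x y` (twice the Gromov product `(x | y)_p`).
-/

set_option autoImplicit false

namespace Pool.Agent.MPe54d61.Abs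

variable {X : Type*}

/-- graph metrics: between any two points there is a path with steps of length at most one, whose number of
steps is the distance -/
structure GM (d : X → X → ℕ) : Prop where
  self : ∀ x, d x x = 0
  symm : ∀ x y, d x y = d y x
  tri : ∀ x y z, d x z ≤ d x y + d y z
  geo : ∀ x y, ∃ γ : ℕ → X, γ 0 = x ∧ γ (d x y) = y ∧ ∀ i < d x y, d (γ i) (γ (i + 1)) ≤ 1

/-- the four-point condition -/
def FP (d : X → X → ℕ) (δ : ℕ) : Prop :=
  ∀ x y z w, d x y + d z w ≤ max (d x z + d y w) (d x w + d y z) + 2 * δ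

/-- twice the coordinate of `p` along `x, y` -/
def cP (d : X → X → ℕ) (x y p : X) : ℤ := (d x p : ℤ) + d x y - d p y

/-- twice the height of `p` above `x, y` -/
def cH (d : X → X → ℕ) (x y p : X) : ℤ := (d x p : ℤ) + d p y - d x y

/-- **Chains** from `x`: steps of length at most one, of cost one, and jumps from `g w0` to `g w1`, of cost
`d w0 w1 - κ`; `Ch G d w0 w1 κ x y n`: there is a chain from `x` to `y` of cost `n` -/
inductive Ch (G : Type*) [Group G] [MulAction G X] (d : X → X → ℕ) (w0 w1 : X) (κ : ℕ) (x : X) :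
    X → ℕ → Prop
  | refl : Ch G d w0 w1 κ x x 0
  | step {y z : X} {n : ℕ} : Ch G d w0 w1 κ x y n → d y z ≤ 1 → Ch G d w0 w1 κ x z (n + 1)
  | jump {n : ℕ} (g : G) : Ch G d w0 w1 κ x (g • w0) n → Ch G d w0 w1 κ x (g • w1) (n + (d w0 w1 - κ))

/-- the smallest cost of a chain from `x` to `y` -/
noncomputable def dw (G : Type*) [Group G] [MulAction G X] (d : X → X → ℕ) (w0 w1 : X) (κ : ℕ)
    (x y : X) : ℕ := sInf {n | Ch G d w0 w1 κ x y n}

/-- invariant under `G` -/
def Inv (G : Type*) [Group G] [MulAction G X] (d : X → X → ℕ) : Prop :=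
  ∀ (g : G) (x y : X), d (g • x) (g • y) = d x y

/-- `h` is a product of `n` commutators -/
def PrC {G : Type*} [Group G] (n : ℕ) (h : G) : Prop :=
  ∃ l : List G, l.length = n ∧ (∀ s ∈ l, ∃ a b : G, s = a * b * a⁻¹ * b⁻¹) ∧ l.prod = h

/-- the stable commutator length of `f` is zero -/
def SclZ {G : Type*} [Group G] (f : G) : Prop :=
  ∀ ε : ℝ, 0 < ε → ∃ n k : ℕ, 1 ≤ n ∧ (k : ℝ) ≤ ε * n ∧ PrC k (f ^ n)

/-- conjugation invariant length functions -/
structure Len {G : Type*} [Group G] (ν : G → ℕ) : Prop where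
  one : ν 1 = 0
  mul : ∀ g h, ν (g * h) ≤ ν g + ν h
  inv : ∀ g, ν g⁻¹ = ν g
  conj : ∀ g h, ν (h * g * h⁻¹) = ν g

end Pool.Agent.MPe54d61.Abs
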