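import Pool.Agent.Lib.MP_e54d61_gt.Abs.Defs

/-!
# MP_e54d61_gt, Abs, Geo: coordinates and heights (helper46)
-/

set_option autoImplicit false

namespace Pool.Agent.MPe54d61.Abs

variable {X : Type*} {d : X → X → ℕ} {δ : ℕ}

/-- heights are not negative -/
theorem cH_nonneg (hd : GM d) (x y p : X) : 0 ≤ cH d x y p := by
  have h := hd.tri x p y
  unfold cH
  omega

theorem cH_left (hd : GM d) (x y : X) : cH d x y x = 0 := by
  have h := hd.self x
  unfold cH
  omega

theorem cH_right (hd : GM d) (x y : X) : cH d x y y = 0 := by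
  have h := hd.self y
  unfold cH
  omega

theorem cH_symm (hd : GM d) (x y p : X) : cH d x y p = cH d y x p := by
  have h1 := hd.symm x y
  have h2 := hd.symm x p
  have h3 := hd.symm y p
  unfold cH
  omega

theorem cP_left (hd : GM d) (x y : X) : cP d x y x = 0 := by
  have h := hd.self x
  unfold cP
  omega

theorem cP_right (hd : GM d) (x y : X) : cP d x y y = 2 * d x y := by
  have h := hd.self y
  unfold cP
  omega

theorem cP_nonneg (hd : GM d) (x y p : X) : 0 ≤ cP d x y p := by
  have h := hd.tri p x y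
  have h2 := hd.symm x p
  unfold cP
  omega

theorem cP_le (hd : GM d) (x y p : X) : cP d x y p ≤ 2 * d x y := by
  have h := hd.tri x y p
  have h2 := hd.symm y p
  unfold cP
  omega

/-- the coordinate is Lipschitz -/
theorem cP_lip (hd : GM d) (x y p q : X) : |cP d x y p - cP d x y q| ≤ 2 * d p q := by
  have h1 := hd.tri x p q
  have h2 := hd.tri x q p
  have h3 := hd.tri p q y
  have h4 := hd.tri q p y
  have h5 := hd.symm p q
  rw [abs_le]
  unfold cP
  omega

/-- the height is Lipschitz -/
theorem cH_lip (hd : GM d) (x y p q : X) : |cH d x y p - cH d x y q| ≤ 2 * d p q := by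
  have h1 := hd.tri x p q
  have h2 := hd.tri x q p
  have h3 := hd.tri p q y
  have h4 := hd.tri q p y
  have h5 := hd.symm p q
  rw [abs_le]
  unfold cH
  omega

/-- **Contraction.** -/
theorem lower (hd : GM d) (hF : FP d δ) (x y p q : X) (h : 2 * (δ : ℤ) < |cP d x y p - cP d x y q|) :
    |cP d x y p - cP d x y q| + cH d x y p + cH d x y q ≤ 2 * d p q + 4 * δ := by
  have h1 := hF x p q y
  have h2 := hF x q p y
  have h3 := hd.symm p q
  have h4 := hd.symm y p
  have h5 := hd.symm y q
  rcases abs_cases (cP d x y p - cP d x y q) with ⟨e1, e2⟩ | ⟨e1, e2⟩ <;> rw [e1] at h ⊢ <;>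
  unfold cP cH at * <;> omega

/-- the distance is bounded by coordinates and heights -/
theorem upper (hd : GM d) (hF : FP d δ) (x y p q : X) :
    2 * (d p q : ℤ) ≤ |cP d x y p - cP d x y q| + cH d x y p + cH d x y q + 4 * δ := by
  have h1 := hF x y p q
  have h4 := hd.symm y p
  have h5 := hd.symm y q
  have a1 := le_abs_self (cP d x y p - cP d x y q)
  have a2 := neg_abs_le (cP d x y p - cP d x y q)
  unfold cP cH at *
  omega

/-- a discrete intermediate value theorem -/
theorem ivt {N : ℕ} {σ : ℤ} (f : ℕ → ℤ) (t : ℤ) (h0 : f 0 ≤ t) (hN : t ≤ f N) (hσ : 0 ≤ σ)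
    (h : ∀ i < N, |f i - f (i + 1)| ≤ σ) : ∃ i ≤ N, |f i - t| ≤ σ := by
  classical
  have hex : ∃ i, t ≤ f i := ⟨N, hN⟩
  obtain ⟨i, hi⟩ : ∃ i, i = Nat.find hex := ⟨_, rfl⟩
  have hi1 : t ≤ f i := hi ▸ Nat.find_spec hex
  have hi2 : i ≤ N := hi ▸ Nat.find_min' hex hN
  refine ⟨i, hi2, ?_⟩
  rcases Nat.eq_zero_or_pos i with h2 | h2
  · rw [h2] at hi1 ⊢
    have : f 0 - t = 0 := by omega
    rw [this, abs_zero]
    exact hσ
  · have h3 : ¬ t ≤ f (i - 1) := Nat.find_min hex (by omega)
    have h4 := h (i - 1) (by omega)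
    rw [Nat.sub_add_cancel h2, abs_le] at h4
    rw [abs_le]
    omega

/-- a path between two points with steps of length `σ` passes close to every point with small height -/
theorem near (hd : GM d) (hF : FP d δ) {x y : X} {N σ R : ℕ} (p : ℕ → X) (h0 : p 0 = x)
    (hN : p N = y) (hs : ∀ i < N, d (p i) (p (i + 1)) ≤ σ) (hR : ∀ i ≤ N, cH d x y (p i) ≤ R)
    (c : X) : ∃ i ≤ N, 2 * (d (p i) c : ℤ) ≤ 2 * σ + R + cH d x y c + 4 * δ := by
  obtain ⟨i, hi, h⟩ := ivt (N := N) (σ := 2 * σ) (fun i => cP d x y (p i)) (cP d x y c)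
    (by rw [h0, cP_left hd]; exact cP_nonneg hd x y c) (by rw [hN, cP_right hd]; exact cP_le hd x y c)
    (by omega) (fun i hi => by
      have h1 := cP_lip hd x y (p i) (p (i + 1))
      have h2 := hs i hi
      refine h1.trans ?_
      omega)
  refine ⟨i, hi, ?_⟩
  have h1 := upper hd hF x y (p i) c
  have h2 := hR i hi
  have h3 : |cP d x y (p i) - cP d x y c| ≤ 2 * σ := h
  omega

/-- points on geodesic paths -/
theorem geo_pt (hd : GM d) (x y : X) (k : ℕ) (hk : k ≤ d x y) :
    ∃ c, d x c = k ∧ d c y = d x y - k := by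
  obtain ⟨γ, h0, h1, h2⟩ := hd.geo x y
  have a : ∀ i ≤ d x y, d x (γ i) ≤ i := by
    intro i
    induction i with
    | zero =>
      intro _
      rw [h0, hd.self]
    | succ i ih =>
      intro hi
      have g1 := ih (by omega)
      have g2 := hd.tri x (γ i) (γ (i + 1))
      have g3 := h2 i (by omega)
      omega
  have b : ∀ j ≤ d x y, d (γ (d x y - j)) y ≤ j := by
    intro j
    induction j with
    | zero =>
      intro _
      rw [Nat.sub_zero, h1, hd.self]
    | succ j ih =>
      intro hj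
      have g1 := ih (by omega)
      have g2 := hd.tri (γ (d x y - (j + 1))) (γ (d x y - j)) y
      have g3 := h2 (d x y - (j + 1)) (by omega)
      rw [show d x y - (j + 1) + 1 = d x y - j by omega] at g3
      omega
  refine ⟨γ k, ?_, ?_⟩
  · have g1 := a k hk
    have g2 := b (d x y - k) (by omega)
    rw [show d x y - (d x y - k) = k by omega] at g2
    have g3 := hd.tri x (γ k) y
    omega
  · have g1 := a k hk
    have g2 := b (d x y - k) (by omega)
    rw [show d x y - (d x y - k) = k by omega] at g2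
    have g3 := hd.tri x (γ k) y
    omega

/-- **Centers of triangles.** -/
theorem center (hd : GM d) (hF : FP d δ) (x y z : X) : ∃ c, cH d x y c ≤ 2 * δ + 1 ∧
    cH d y z c ≤ 2 * δ + 1 ∧ cH d z x c ≤ 2 * δ + 1 := by
  have hz := cP_nonneg hd x y z
  have hz2 := cP_le hd x y z
  obtain ⟨c, hc1, hc2⟩ := geo_pt hd x y (cP d x y z / 2).toNat (by omega)
  refine ⟨c, ?_, ?_, ?_⟩
  · unfold cH
    omega
  all_goals
    have h1 := upper hd hF x y z c
    have h2 : |cP d x y z - cP d x y c| ≤ 1 := by
      rw [abs_le]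
      unfold cP at *
      omega
    have s1 := hd.symm x z
    have s2 := hd.symm y z
    have s3 := hd.symm c z
    have s4 := hd.symm c y
    have s5 := hd.symm c x
    unfold cP cH at *
    omega

end Pool.Agent.MPe54d61.Abs
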