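import Pool.Agent.Lib.MP_e54d61_gt.Abs.Orbit
import Pool.Agent.Lib.MP_e54d61_gt.Abs.Bav

/-!
# MP_e54d61_gt, Abs, Main: `scl f = 0` implies that `ν` is stably zero on `f` (helper46)
-/

set_option autoImplicit false

namespace Pool.Agent.MPe54d61.Abs

open Filter Topology

variable {X : Type*} {d : X → X → ℕ} {G : Type*} [Group G] [MulAction G X] {x0 : X} {f : G}
  {δ lam : ℕ}

/-- the not reversible case -/
theorem nonrev (hd : GM d) (hF : FP d δ) (hI : Inv G d)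
    (hlam : ∀ n : ℕ, n ≤ lam * d x0 (f ^ n • x0))
    (hnr : ∀ K : ℕ, ∃ m : ℕ, ∀ g : G, d (g • x0) x0 ≤ K →
      ¬ d (g • f ^ m • x0) ((f ^ m)⁻¹ • x0) ≤ K) : ¬ SclZ f := by
  obtain ⟨l0, hl0⟩ : ∃ l0, l0 = d x0 (f • x0) := ⟨_, rfl⟩
  obtain ⟨κ, hκ⟩ : ∃ κ, κ = oB δ lam l0 + 1 := ⟨_, rfl⟩
  obtain ⟨K, hK⟩ : ∃ K, K = oR δ κ lam l0 + 2 * ((lam * (oW δ κ lam l0 + 1)) * l0) := ⟨_, rfl⟩
  obtain ⟨m, hm⟩ := hnr K
  -- `m` is large
  have hml : lam * (oW δ κ lam l0 + 1) < m := by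
    by_contra hcon
    push Not at hcon
    refine hm 1 ?_ ?_
    · rw [one_smul, hd.self]
      exact Nat.zero_le _
    · rw [one_smul]
      have h1 := hd.tri (f ^ m • x0) x0 ((f ^ m)⁻¹ • x0)
      have h2 := orb_mul (f := f) (x0 := x0) hd hI 1 m
      rw [Nat.mul_one, pow_one, ← hl0] at h2
      have h3 : d x0 ((f ^ m)⁻¹ • x0) = d (f ^ m • x0) x0 := by
        rw [← hI (f ^ m) x0 ((f ^ m)⁻¹ • x0), smul_inv_smul]
      have h4 := hd.symm x0 (f ^ m • x0)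
      have h5 : m * l0 ≤ (lam * (oW δ κ lam l0 + 1)) * l0 := Nat.mul_le_mul_right _ hcon
      omega
  have hW : oW δ κ lam (d x0 (f • x0)) < d x0 (f ^ m • x0) := by
    rw [← hl0]
    by_contra hcon
    push Not at hcon
    have h1 := hlam m
    have h2 : lam * d x0 (f ^ m • x0) ≤ lam * (oW δ κ lam l0 + 1) :=
      Nat.mul_le_mul_left _ (by omega)
    omega
  have hκW : 2 * κ ≤ d x0 (f ^ m • x0) := by
    unfold oW at hW
    omega
  refine not_sclZ (φ := ph d x0 (f ^ m • x0) κ x0) (D := 3 * cD δ κ) (m := m) (fun g h => ?_)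
    (fun n => ?_)
  · have := ph_qm (G := G) hd hF hI hκW x0 g h
    push_cast
    exact this
  · have h1 := nojump hd hF hI hlam κ m hW (fun g hg hg' => by
      rw [← hl0] at hg hg'
      exact hm g (by omega) (by omega)) (m * n)
    rw [pow_mul] at h1
    have h2 := dw_le (orb_ch (G := G) (d := d) (x0 := x0) (f := f) κ m n)
    have h3 := orb_lin hd hF hI hlam m n
    rw [← hl0] at h3
    have h4 := hd.symm x0 ((f ^ m) ^ n • x0)
    have h5 : n * (d x0 (f ^ m • x0) - κ) + n * κ = n * d x0 (f ^ m • x0) := by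
      rw [← Nat.mul_add]
      congr 1
      omega
    have h6 : n * κ = n * oB δ lam l0 + n := by
      rw [hκ, Nat.mul_add, Nat.mul_one]
    have h7 : ph d x0 (f ^ m • x0) κ x0 ((f ^ m) ^ n) ≤ - (n : ℤ) := by
      unfold ph Dl
      omega
    exact (le_neg.2 h7).trans (neg_le_abs _)

/-- the stable value -/
theorem stab {ν : G → ℕ} (hν : Len ν) (h : ∀ ε : ℝ, 0 < ε → ∃ n : ℕ, 1 ≤ n ∧ (ν (f ^ n) : ℝ) ≤ ε * n) :
    Tendsto (fun n : ℕ => (ν (f ^ n) : ℝ) / n) atTop (𝓝 0) := by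
  have hpow : ∀ (g : G) (k : ℕ), ν (g ^ k) ≤ k * ν g := by
    intro g k
    induction k with
    | zero => rw [pow_zero, hν.one, Nat.zero_mul]
    | succ k ih =>
      rw [pow_succ, Nat.succ_mul]
      exact (hν.mul _ _).trans (Nat.add_le_add_right ih _)
  rw [Metric.tendsto_atTop]
  intro ε hε
  obtain ⟨n, hn, hn2⟩ := h (ε / 4) (by positivity)
  obtain ⟨A, hA⟩ := exists_nat_gt ((n * ν f : ℕ) * 4 / ε)
  refine ⟨max A 1, fun N hN => ?_⟩
  have hN1 : 1 ≤ N := (le_max_right _ _).trans hN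
  have hNA : A ≤ N := (le_max_left _ _).trans hN
  have h1 : ν (f ^ N) ≤ (N / n) * ν (f ^ n) + n * ν f := by
    have h2 : f ^ N = (f ^ n) ^ (N / n) * f ^ (N % n) := by
      rw [← pow_mul, ← pow_add, Nat.div_add_mod]
    rw [h2]
    refine (hν.mul _ _).trans (Nat.add_le_add (hpow _ _) ((hpow _ _).trans ?_))
    exact Nat.mul_le_mul_right _ (Nat.mod_lt _ hn).le
  have hN' : (0 : ℝ) < N := by exact_mod_cast hN1
  have h3 : (ν (f ^ N) : ℝ) ≤ (ε / 4) * N + (n * ν f : ℕ) := by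
    have h4 : ((N / n : ℕ) : ℝ) * ν (f ^ n) ≤ (ε / 4) * N := by
      calc ((N / n : ℕ) : ℝ) * ν (f ^ n) ≤ ((N / n : ℕ) : ℝ) * (ε / 4 * n) :=
            mul_le_mul_of_nonneg_left hn2 (Nat.cast_nonneg _)
        _ = (ε / 4) * (((N / n : ℕ) : ℝ) * n) := by ring
        _ ≤ (ε / 4) * N := by
            apply mul_le_mul_of_nonneg_left _ (by positivity)
            exact_mod_cast Nat.div_mul_le_self N n
    have h5 : (ν (f ^ N) : ℝ) ≤ ((N / n : ℕ) : ℝ) * ν (f ^ n) + (n * ν f : ℕ) := by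
      exact_mod_cast h1
    linarith
  have h6 : ((n * ν f : ℕ) : ℝ) ≤ (ε / 4) * N := by
    have h7 : ((n * ν f : ℕ) : ℝ) * 4 / ε < N := lt_of_lt_of_le hA (by exact_mod_cast hNA)
    rw [div_lt_iff₀ hε] at h7
    linarith
  rw [Real.dist_eq, sub_zero, abs_of_nonneg (by positivity), div_lt_iff₀ hN']
  have : 0 < ε * N := by positivity
  linarith

/-- **Theorem.** `G` acts on the hyperbolic graph `X`, and the conjugation invariant length `ν` is bounded by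
the displacement: if `scl f = 0` then `ν (f ^ n) / n` tends to zero. -/
theorem main (hd : GM d) (hF : FP d δ) (hI : Inv G d) {ν : G → ℕ} (hν : Len ν) (C : ℕ)
    (hC : ∀ g : G, ν g ≤ C * (1 + d x0 (g • x0))) (hs : SclZ f) :
    Tendsto (fun n : ℕ => (ν (f ^ n) : ℝ) / n) atTop (𝓝 0) := by
  apply stab hν
  intro ε hε
  by_cases hq : ∃ lam : ℕ, ∀ n : ℕ, n ≤ lam * d x0 (f ^ n • x0)
  · obtain ⟨lam, hlam⟩ := hq
    by_cases hr : ∃ K : ℕ, ∀ m : ℕ, ∃ g : G, d (g • x0) x0 ≤ K ∧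
        d (g • f ^ m • x0) ((f ^ m)⁻¹ • x0) ≤ K
    · obtain ⟨K, hK⟩ := hr
      obtain ⟨m, hm⟩ := exists_nat_gt (((2 * (C * (1 + K)) : ℕ) : ℝ) / ε)
      refine ⟨(m + 1) + (m + 1), by omega, ?_⟩
      obtain ⟨g, hg1, hg2⟩ := hK (m + 1)
      have e1 : ν g ≤ C * (1 + K) := by
        refine (hC g).trans (Nat.mul_le_mul_left _ ?_)
        rw [hd.symm]
        omega
      have e2 : ν (f ^ (m + 1) * g * f ^ (m + 1)) ≤ C * (1 + K) := by
        refine (hC _).trans (Nat.mul_le_mul_left _ ?_)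
        have h1 : d x0 ((f ^ (m + 1) * g * f ^ (m + 1)) • x0) =
            d (g • f ^ (m + 1) • x0) ((f ^ (m + 1))⁻¹ • x0) := by
          rw [hd.symm, ← hI (f ^ (m + 1)) (g • f ^ (m + 1) • x0), smul_inv_smul, mul_smul, mul_smul]
        rw [h1]
        omega
      have e3 : f ^ ((m + 1) + (m + 1)) = (f ^ (m + 1) * g * f ^ (m + 1)) *
          ((f ^ (m + 1))⁻¹ * g⁻¹ * ((f ^ (m + 1))⁻¹)⁻¹) := by
        rw [pow_add]
        group
      have e4 : ν (f ^ ((m + 1) + (m + 1))) ≤ 2 * (C * (1 + K)) := by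
        rw [e3]
        have h1 := hν.mul (f ^ (m + 1) * g * f ^ (m + 1))
          ((f ^ (m + 1))⁻¹ * g⁻¹ * ((f ^ (m + 1))⁻¹)⁻¹)
        rw [hν.conj, hν.inv] at h1
        omega
      have e5 : (ν (f ^ ((m + 1) + (m + 1))) : ℝ) ≤ ((2 * (C * (1 + K)) : ℕ) : ℝ) := by
        exact_mod_cast e4
      rw [div_lt_iff₀ hε] at hm
      push_cast at e5 hm ⊢
      have : (0 : ℝ) ≤ m := Nat.cast_nonneg m
      nlinarith
    · exfalso
      push Not at hr
      exact nonrev hd hF hI hlam (fun K => by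
        obtain ⟨m, hm⟩ := hr K
        exact ⟨m, fun g h1 h2 => absurd h2 (not_le.2 (hm g h1))⟩) hs
  · push Not at hq
    obtain ⟨lam, hlam⟩ := exists_nat_gt ((2 * C : ℕ) / ε)
    obtain ⟨n, hn⟩ := hq (lam + 1)
    refine ⟨(lam + 1) * n, ?_, ?_⟩
    · have : 0 < n := lt_of_le_of_lt (Nat.zero_le _) hn
      exact Nat.mul_pos (Nat.succ_pos _) this
    · have h1 := hC (f ^ ((lam + 1) * n))
      have h2 := orb_mul (f := f) (x0 := x0) hd hI n (lam + 1)
      have h3 : ν (f ^ ((lam + 1) * n)) ≤ C * (2 * n) := by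
        refine h1.trans (Nat.mul_le_mul_left _ ?_)
        omega
      have h4 : (ν (f ^ ((lam + 1) * n)) : ℝ) ≤ ((2 * C : ℕ) : ℝ) * n := by
        have : (ν (f ^ ((lam + 1) * n)) : ℝ) ≤ ((C * (2 * n) : ℕ) : ℝ) := by exact_mod_cast h3
        refine this.trans (le_of_eq ?_)
        push_cast
        ring
      rw [div_lt_iff₀ hε] at hlam
      have hn0 : (0 : ℝ) ≤ n := Nat.cast_nonneg n
      push_cast at h4 hlam ⊢
      calc (ν (f ^ ((lam + 1) * n)) : ℝ) ≤ 2 * C * n := h4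
        _ ≤ (lam * ε) * n := mul_le_mul_of_nonneg_right hlam.le hn0
        _ ≤ ε * ((lam + 1) * n) := by
            have : 0 ≤ ε * n := by positivity
            nlinarith

end Pool.Agent.MPe54d61.Abs
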