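import Pool.Agent.Lib.MP_e54d61_gt.Abs.Guess
import Pool.Agent.Lib.MP_e54d61_gt.Abs.Main

/-!
# MP_e54d61_gt, Abs, Graph: connected graphs (helper46)
-/

set_option autoImplicit false

namespace Pool.Agent.MPe54d61.Abs

open Filter Topology

variable {X : Type*}

/-- the distance of a connected graph is a graph metric -/
theorem gm_dist (Gr : SimpleGraph X) (hc : Gr.Connected) : GM (fun x y => Gr.dist x y) where
  self x := SimpleGraph.dist_self
  symm x y := SimpleGraph.dist_comm
  tri x y z := hc.dist_triangle
  geo x y := by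
    obtain ⟨w, hw⟩ := hc.exists_walk_length_eq_dist x y
    refine ⟨w.getVert, w.getVert_zero, ?_, ?_⟩
    · show w.getVert (Gr.dist x y) = y
      rw [← hw, w.getVert_length]
    · intro i hi
      have hi' : i < w.length := by
        rw [hw]
        exact hi
      have h := w.adj_getVert_succ hi'
      exact (SimpleGraph.dist_eq_one_iff_adj.2 h).le

/-- automorphisms preserve the distance -/
theorem inv_dist {G : Type*} [Group G] [MulAction G X] (Gr : SimpleGraph X) (hc : Gr.Connected)
    (h : ∀ (g : G) (x y : X), Gr.Adj x y → Gr.Adj (g • x) (g • y)) :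
    Inv G (fun x y => Gr.dist x y) := by
  have key : ∀ (g : G) (x y : X), Gr.dist (g • x) (g • y) ≤ Gr.dist x y := by
    intro g x y
    obtain ⟨w, hw⟩ := hc.exists_walk_length_eq_dist x y
    let φ : Gr →g Gr := ⟨fun z => g • z, fun {a b} hab => h g a b hab⟩
    have h1 := SimpleGraph.dist_le (w.map φ)
    rw [SimpleGraph.Walk.length_map, hw] at h1
    exact h1
  intro g x y
  refine le_antisymm (key g x y) ?_
  have h1 := key g⁻¹ (g • x) (g • y)
  rw [inv_smul_smul, inv_smul_smul] at h1
  exact h1

/-- **Theorem.** A group `G` acts on a connected graph with sets `L x y` as in the criterion for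
hyperbolicity, and the conjugation invariant length `ν` is bounded by the displacement of one vertex.  If
`scl f = 0` then `ν (f ^ n) / n` tends to zero. -/
theorem main_graph {G : Type*} [Group G] [MulAction G X] (Gr : SimpleGraph X) (hc : Gr.Connected)
    (ha : ∀ (g : G) (x y : X), Gr.Adj x y → Gr.Adj (g • x) (g • y)) (L : X → X → Set X) (h : ℕ)
    (hL : GG (fun x y => Gr.dist x y) L h) {ν : G → ℕ} (hν : Len ν) (x0 : X) (C : ℕ)
    (hC : ∀ g : G, ν g ≤ C * (1 + Gr.dist x0 (g • x0))) {f : G} (hs : SclZ f) :
    Tendsto (fun n : ℕ => (ν (f ^ n) : ℝ) / n) atTop (𝓝 0) := by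
  obtain ⟨δ, hF⟩ := guess (gm_dist Gr hc) hL
  exact main (gm_dist Gr hc) hF (inv_dist Gr hc ha) hν C hC hs

end Pool.Agent.MPe54d61.Abs
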