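import Pool.Agent.Lib.MP_e54d61_gt.Abs.Morse

/-!
# MP_e54d61_gt, Abs, Guess: guessing geodesics (helper46)

**Theorem `guess`.**  Let `d` be a graph metric and let `L x y` be sets with the properties `GG`: `L x y` contains a
path with small steps from `x` to `y`, `L x y` is contained in the `h`-neighbourhood of `L x z ∪ L z y`, and `L x y`
is small if `d x y ≤ 1`.  Then the four-point condition holds, with a constant which depends on `h` only.
-/

set_option autoImplicit false

namespace Pool.Agent.MPe54d61.Abs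

variable {X : Type*} {d : X → X → ℕ}

/-- the hypotheses of the criterion (`x` and `y` are in `L x y` by `path`) -/
structure GG (d : X → X → ℕ) (L : X → X → Set X) (h : ℕ) : Prop where
  path : ∀ x y, ∃ (N : ℕ) (p : ℕ → X), p 0 = x ∧ p N = y ∧ (∀ i ≤ N, p i ∈ L x y) ∧
    ∀ i < N, d (p i) (p (i + 1)) ≤ h
  thin : ∀ x y z, ∀ w ∈ L x y, ∃ w', (w' ∈ L x z ∨ w' ∈ L z y) ∧ d w w' ≤ h
  small : ∀ x y, d x y ≤ 1 → ∀ w ∈ L x y, d x w ≤ h

variable {L : X → X → Set X} {h : ℕ}

/-- heights above a part of a geodesic -/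
theorem cH_left_le (hd : GM d) {x y z : X} (hz : d x z + d z y = d x y) (w : X) :
    cH d x y w ≤ cH d x z w := by
  have h1 := hd.tri w z y
  unfold cH
  omega

theorem cH_right_le (hd : GM d) {x y z : X} (hz : d x z + d z y = d x y) (w : X) :
    cH d x y w ≤ cH d z y w := by
  have h1 := hd.tri x z w
  unfold cH
  omega

theorem gg_small (hd : GM d) (hL : GG d L h) {x y : X} (hxy : d x y ≤ 1) {w : X} (hw : w ∈ L x y) :
    cH d x y w ≤ 2 * h := by
  have h1 := hL.small x y hxy w hw
  have h2 := hd.tri w x y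
  have h3 := hd.symm w x
  unfold cH
  omega

/-- one halving step -/
theorem gg_step (hd : GM d) (hL : GG d L h) {B n : ℕ}
    (ih : ∀ x y, d x y ≤ n → ∀ w ∈ L x y, cH d x y w ≤ B) (x y : X) (hxy : d x y ≤ 2 * n) (w : X)
    (hw : w ∈ L x y) : cH d x y w ≤ B + 2 * h := by
  rcases Nat.lt_or_ge n (d x y) with h1 | h1
  · obtain ⟨z, hz1, hz2⟩ := geo_pt hd x y n h1.le
    obtain ⟨w', hw', hww⟩ := hL.thin x y z w hw
    have h2 := cH_lip hd x y w w'
    rw [abs_le] at h2
    rcases hw' with h3 | h3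
    · have h4 := ih x z (by omega) w' h3
      have h5 := cH_left_le hd (z := z) (x := x) (y := y) (by omega) w'
      omega
    · have h4 := ih z y (by omega) w' h3
      have h5 := cH_right_le hd (z := z) (x := x) (y := y) (by omega) w'
      omega
  · have := ih x y h1 w hw
    omega

/-- the logarithmic bound -/
theorem gg_log (hd : GM d) (hL : GG d L h) : ∀ (k : ℕ) (x y : X), d x y ≤ 2 ^ k → ∀ w ∈ L x y,
    cH d x y w ≤ ((2 * h * (k + 1) : ℕ) : ℤ) := by
  intro k
  induction k with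
  | zero =>
    intro x y hxy w hw
    have h1 := gg_small hd hL (x := x) (y := y) (by simpa using hxy) hw
    refine h1.trans (le_of_eq ?_)
    push_cast
    ring
  | succ k ih =>
    intro x y hxy w hw
    have h1 := gg_step hd hL (B := 2 * h * (k + 1)) (n := 2 ^ k) ih x y
      (by rw [pow_succ] at hxy; omega) w hw
    refine h1.trans (le_of_eq ?_)
    push_cast
    ring

/-- the constants -/
theorem gg_const (h : ℕ) : ∃ K k : ℕ, 2 * h * (k + 1) + 4 * h ≤ K ∧ 6 * h ≤ K ∧
    2 * (K + 4 * h + 2) ≤ 2 ^ k := by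
  obtain ⟨j, hj⟩ : ∃ j, j = 30 * h + 10 := ⟨_, rfl⟩
  refine ⟨2 * h * (2 * j + 1) + 4 * h, 2 * j, le_rfl, ?_, ?_⟩
  · have : 2 * h * 1 ≤ 2 * h * (2 * j + 1) := Nat.mul_le_mul_left _ (by omega)
    omega
  · have h1 : j + 1 ≤ 2 ^ j := Nat.lt_two_pow_self
    have h2 : (j + 1) * (j + 1) ≤ 2 ^ (2 * j) := by
      rw [Nat.two_mul, pow_add]
      exact Nat.mul_le_mul h1 h1
    refine le_trans ?_ h2
    rw [hj]
    ring_nf
    nlinarith [Nat.zero_le h]

/-- **Heights are bounded.** -/
theorem gg_height (hd : GM d) (hL : GG d L h) {K k0 : ℕ} (hK1 : 2 * h * (k0 + 1) + 4 * h ≤ K)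
    (hK2 : 6 * h ≤ K) (hK3 : 2 * (K + 4 * h + 2) ≤ 2 ^ k0) : ∀ (k : ℕ) (x y : X), d x y ≤ 2 ^ k →
    ∀ w ∈ L x y, cH d x y w ≤ K := by
  intro k
  induction k with
  | zero =>
    intro x y hxy w hw
    have h1 := gg_small hd hL (x := x) (y := y) (by simpa using hxy) hw
    omega
  | succ k ih =>
    have hT := gg_step hd hL (B := K) (n := 2 ^ k) ih
    intro x y hxy w hw
    have hxy' : d x y ≤ 2 * 2 ^ k := by
      rw [pow_succ] at hxy
      omega
    have hPn := cP_nonneg hd x y w
    have hPl := cP_le hd x y w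
    obtain ⟨P, hP⟩ : ∃ P : ℕ, (P : ℤ) = cP d x y w := ⟨(cP d x y w).toNat, Int.toNat_of_nonneg hPn⟩
    obtain ⟨s, hs⟩ : ∃ s, s = K + 4 * h + 1 := ⟨_, rfl⟩
    obtain ⟨b, hb⟩ : ∃ b, b = min (d x y) (P / 2 + s + 1) := ⟨_, rfl⟩
    obtain ⟨a, ha⟩ : ∃ a, a = P / 2 - s := ⟨_, rfl⟩
    have hab : a ≤ b := by omega
    obtain ⟨q, hq1, hq2⟩ := geo_pt hd x y b (by omega)
    obtain ⟨p, hp1, hp2⟩ := geo_pt hd x q a (by omega)
    obtain ⟨w1, hw1, hd1⟩ := hL.thin x y q w hw
    have l1 := cH_lip hd x y w w1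
    rw [abs_le] at l1
    have hH0 := cH_nonneg hd x y w
    rcases hw1 with h1 | h1
    · -- `w1 ∈ L x q`
      obtain ⟨w2, hw2, hd2⟩ := hL.thin x q p w1 h1
      have l2 := cH_lip hd x y w1 w2
      rw [abs_le] at l2
      have hxqy := cH_left_le hd (z := q) (x := x) (y := y) (by omega) w2
      rcases hw2 with h2 | h2
      · -- `w2 ∈ L x p`
        have hxpq := cH_left_le hd (z := p) (x := x) (y := q) (by omega) w2
        rcases Nat.eq_zero_or_pos a with h3 | h3
        · have h4 := gg_small hd hL (x := x) (y := p) (by omega) h2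
          omega
        · exfalso
          have h4 := hT x p (by omega) w2 h2
          have t1 := hd.tri x w2 w
          have t2 := hd.tri w2 w1 w
          have t3 := hd.symm w2 w1
          have t4 := hd.symm w1 w
          unfold cP cH at *
          omega
      · -- `w2 ∈ L p q`
        have hxpq := cH_right_le hd (z := p) (x := x) (y := q) (by omega) w2
        have h4 := gg_log hd hL k0 p q (by omega) w2 h2
        omega
    · -- `w1 ∈ L q y`
      have hxqy := cH_right_le hd (z := q) (x := x) (y := y) (by omega) w1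
      rcases Nat.lt_or_ge (P / 2 + s + 1) (d x y) with h3 | h3
      · exfalso
        have h4 := hT q y (by omega) w1 h1
        have t1 := hd.tri w w1 y
        unfold cP cH at *
        omega
      · have h4 := gg_small hd hL (x := q) (y := y) (by omega) h1
        omega

/-- geodesics are close to `L x y` -/
theorem gg_near (hd : GM d) (hL : GG d L h) {K : ℕ} (hK : ∀ x y, ∀ w ∈ L x y, cH d x y w ≤ K)
    (x y c : X) (hc : d x c + d c y = d x y) : ∃ v ∈ L x y, d c v ≤ 2 * K + 3 * h := by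
  obtain ⟨N, p, hp0, hpN, hp1, hp2⟩ := hL.path x c
  by_cases h0 : d (p 0) c ≤ 2 * K + h
  · obtain ⟨N', p', hp0', -, hp1', -⟩ := hL.path x y
    refine ⟨x, ?_, ?_⟩
    · have h1 := hp1' 0 (Nat.zero_le _)
      rw [hp0'] at h1
      exact h1
    · rw [hd.symm, ← hp0]
      omega
  · obtain ⟨i, hi1, hi2, hi3, hi4⟩ := first (fun i => d (p i) c ≤ 2 * K + h) 0 N (Nat.zero_le _)
      (by show d (p N) c ≤ _; rw [hpN, hd.self]; exact Nat.zero_le _) h0
    have h1 : ¬ d (p (i - 1)) c ≤ 2 * K + h := hi4 (i - 1) (Nat.zero_le _) (by omega)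
    have h2 := hp2 (i - 1) (by omega)
    rw [Nat.sub_add_cancel (by omega)] at h2
    have h3 : d (p i) c ≤ 2 * K + h := hi3
    have h4 := hd.tri (p (i - 1)) (p i) c
    have h5 := hp1 (i - 1) (by omega)
    obtain ⟨v, hv, hv2⟩ := hL.thin x c y (p (i - 1)) h5
    rcases hv with hv | hv
    · refine ⟨v, hv, ?_⟩
      have h6 := hd.tri c (p (i - 1)) v
      have h7 := hd.symm c (p (i - 1))
      omega
    · exfalso
      have h6 := hK y c v hv
      have h7 := hK x c _ h5
      have h8 := hd.tri x (p (i - 1)) y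
      have h9 := hd.tri (p (i - 1)) v y
      have g1 := hd.symm v y
      have g2 := hd.symm c y
      unfold cH at h6 h7
      omega

/-- the four-point condition from thin triangles -/
theorem fp_of_thin (hd : GM d) {A : ℕ} (hA : ∀ x y z c, d x c + d c y = d x y →
    cH d x z c ≤ A ∨ cH d z y c ≤ A) : FP d (A + 1) := by
  intro x y z w
  obtain ⟨γ, g0, g1, g2⟩ := hd.geo x y
  -- points on the path are on the geodesic
  have a : ∀ i ≤ d x y, d x (γ i) ≤ i := by
    intro i hi
    have h := path_le hd (N := d x y) (σ := 1) γ g2 0 i (by omega)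
    rw [Nat.zero_add, g0] at h
    omega
  have b : ∀ i ≤ d x y, d (γ i) y ≤ d x y - i := by
    intro i hi
    have h := path_le hd (N := d x y) (σ := 1) γ g2 i (d x y - i) (by omega)
    rw [show i + (d x y - i) = d x y by omega, g1] at h
    omega
  have ab : ∀ i ≤ d x y, d x (γ i) + d (γ i) y = d x y := by
    intro i hi
    have h1 := a i hi
    have h2 := b i hi
    have h3 := hd.tri x (γ i) y
    omega
  obtain ⟨c, hc, hc1, hc2⟩ : ∃ c, d x c + d c y = d x y ∧ cH d x z c ≤ A ∧ cH d z y c ≤ A + 2 := by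
    by_cases hD : cH d x z (γ (d x y)) ≤ A
    · refine ⟨γ (d x y), ab _ le_rfl, hD, ?_⟩
      rw [g1, cH_right hd]
      omega
    · obtain ⟨i, hi1, hi2, hi3⟩ := last (fun i => cH d x z (γ i) ≤ A) (d x y)
        (by show cH d x z (γ 0) ≤ A; rw [g0, cH_left hd]; omega) hD
      refine ⟨γ i, ab i hi1.le, hi2, ?_⟩
      have h1 : ¬ cH d x z (γ (i + 1)) ≤ A := hi3 (i + 1) (by omega) (by omega)
      rcases hA x y z (γ (i + 1)) (ab _ (by omega)) with h2 | h2
      · exact absurd h2 h1
      · have h3 := cH_lip hd z y (γ i) (γ (i + 1))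
        have h4 := g2 i hi1
        rw [abs_le] at h3
        omega
  have s1 := hd.symm y z
  have s2 := hd.symm y w
  have s3 := hd.symm w c
  have s4 := hd.tri z c w
  have s5 := hd.symm c z
  rcases hA x y w c hc with h1 | h1
  · unfold cH at *
    omega
  · unfold cH at *
    omega

/-- **Guessing geodesics.** -/
theorem guess (hd : GM d) (hL : GG d L h) : ∃ δ, FP d δ := by
  obtain ⟨K, k0, hK1, hK2, hK3⟩ := gg_const h
  have hK : ∀ x y, ∀ w ∈ L x y, cH d x y w ≤ K := by
    intro x y w hw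
    exact gg_height hd hL hK1 hK2 hK3 (d x y) x y (Nat.lt_two_pow_self).le w hw
  refine ⟨K + 2 * (2 * K + 4 * h) + 1, fp_of_thin hd fun x y z c hc => ?_⟩
  obtain ⟨v, hv1, hv2⟩ := gg_near hd hL hK x y c hc
  obtain ⟨w', hw', hw2⟩ := hL.thin x y z v hv1
  have h1 := hd.tri c v w'
  rcases hw' with h2 | h2
  · left
    have h3 := hK x z w' h2
    have h4 := cH_lip hd x z c w'
    rw [abs_le] at h4
    push_cast
    omega
  · right
    have h3 := hK z y w' h2
    have h4 := cH_lip hd z y c w'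
    rw [abs_le] at h4
    push_cast
    omega

end Pool.Agent.MPe54d61.Abs
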