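import Pool.Agent.Lib.MP_e54d61_gt.Abs.Geo

/-!
# MP_e54d61_gt, Abs, Morse: quasi-geodesics stay close to `x, y` (helper46)
-/

set_option autoImplicit false

namespace Pool.Agent.MPe54d61.Abs

variable {X : Type*} {d : X → X → ℕ} {δ : ℕ}

/-- the length of the blocks -/
def mB (δ lam : ℕ) : ℕ := 4 * lam * δ + 1

/-- the threshold -/
def mT (δ lam σ : ℕ) : ℕ := 2 * mB δ lam * σ

/-- the length of excursions -/
def mM (δ lam ε σ : ℕ) : ℕ :=
  lam * (2 * mB δ lam * σ + 2 * σ + 2 * mT δ lam σ + 4 * δ) + 2 * ε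

/-- the Morse constant -/
def mR (δ lam ε σ : ℕ) : ℕ := mT δ lam σ + 2 * (mM δ lam ε σ * σ)

theorem path_le (hd : GM d) {N σ : ℕ} (p : ℕ → X) (hs : ∀ i < N, d (p i) (p (i + 1)) ≤ σ) (i : ℕ) :
    ∀ k, i + k ≤ N → d (p i) (p (i + k)) ≤ k * σ := by
  intro k
  induction k with
  | zero =>
    intro _
    rw [Nat.add_zero, hd.self, Nat.zero_mul]
  | succ k ih =>
    intro hk
    have g1 := ih (by omega)
    have g2 := hd.tri (p i) (p (i + k)) (p (i + (k + 1)))
    have g3 := hs (i + k) (by omega)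
    rw [Nat.succ_mul]
    have g4 : d (p (i + k)) (p (i + (k + 1))) ≤ σ := g3
    omega

/-- one block -/
theorem block (hd : GM d) (hF : FP d δ) {x y : X} {N σ b : ℕ} (p : ℕ → X)
    (hs : ∀ i < N, d (p i) (p (i + 1)) ≤ σ) (s : ℕ) (hN : s + b ≤ N)
    (hT : ((2 * b * σ : ℕ) : ℤ) < cH d x y (p s)) :
    |cP d x y (p s) - cP d x y (p (s + b))| ≤ 4 * δ := by
  by_contra hcon
  push Not at hcon
  have h1 := lower hd hF x y (p s) (p (s + b)) (by omega)
  have h2 := path_le hd p hs s b hN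
  have h3 := cH_nonneg hd x y (p (s + b))
  have h4 : 2 * b * σ = 2 * (b * σ) := by ring
  rw [h4] at hT
  omega

/-- many blocks -/
theorem blocks (hd : GM d) (hF : FP d δ) {x y : X} {N σ b : ℕ} (p : ℕ → X)
    (hs : ∀ i < N, d (p i) (p (i + 1)) ≤ σ) (s : ℕ) (hb : 1 ≤ b) : ∀ k, s + k * b ≤ N →
    (∀ r, s ≤ r → r < s + k * b → ((2 * b * σ : ℕ) : ℤ) < cH d x y (p r)) →
    |cP d x y (p s) - cP d x y (p (s + k * b))| ≤ 4 * δ * k := by
  intro k
  induction k with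
  | zero =>
    intro _ _
    rw [Nat.zero_mul, Nat.add_zero, sub_self, abs_zero]
    simp
  | succ k ih =>
    intro hk hr
    rw [Nat.succ_mul] at hk hr ⊢
    have h1 := ih (by omega) (fun r h2 h3 => hr r h2 (by omega))
    have h2 := block hd hF (x := x) (y := y) p hs (s + k * b) (b := b) (by omega)
      (hr _ (by omega) (by omega))
    rw [Nat.add_assoc] at h2
    have h3 := abs_sub_le (cP d x y (p s)) (cP d x y (p (s + k * b))) (cP d x y (p (s + (k * b + b))))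
    push_cast
    linarith

theorem last (Q : ℕ → Prop) (i : ℕ) (h0 : Q 0) (hi : ¬ Q i) :
    ∃ a < i, Q a ∧ ∀ s, a < s → s ≤ i → ¬ Q s := by
  classical
  refine ⟨Nat.findGreatest Q i, ?_, ?_, ?_⟩
  · rcases Nat.lt_or_eq_of_le (Nat.findGreatest_le (P := Q) i) with h | h
    · exact h
    · exact absurd (h ▸ Nat.findGreatest_spec (P := Q) (Nat.zero_le i) h0) hi
  · exact Nat.findGreatest_spec (P := Q) (Nat.zero_le i) h0
  · intro s h1 h2
    exact Nat.findGreatest_is_greatest h1 h2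

theorem first (Q : ℕ → Prop) (i N : ℕ) (hiN : i ≤ N) (hN : Q N) (hi : ¬ Q i) :
    ∃ c, i < c ∧ c ≤ N ∧ Q c ∧ ∀ s, i ≤ s → s < c → ¬ Q s := by
  classical
  have hex : ∃ c, i < c ∧ Q c := by
    refine ⟨N, ?_, hN⟩
    rcases Nat.lt_or_eq_of_le hiN with h | h
    · exact h
    · exact absurd (h ▸ hN) hi
  refine ⟨Nat.find hex, (Nat.find_spec hex).1, Nat.find_min' hex ⟨?_, hN⟩, (Nat.find_spec hex).2, ?_⟩
  · rcases Nat.lt_or_eq_of_le hiN with h | h
    · exact h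
    · exact absurd (h ▸ hN) hi
  · intro s h1 h2 h3
    rcases Nat.lt_or_eq_of_le h1 with h | h
    · exact Nat.find_min hex h2 ⟨h, h3⟩
    · exact hi (h ▸ h3)

/-- **Quasi-geodesics.** -/
theorem morse (hd : GM d) (hF : FP d δ) {x y : X} {N σ lam ε : ℕ} (p : ℕ → X) (h0 : p 0 = x)
    (hN : p N = y) (hs : ∀ i < N, d (p i) (p (i + 1)) ≤ σ)
    (hq : ∀ i j, i ≤ j → j ≤ N → j ≤ i + lam * d (p i) (p j) + ε) :
    ∀ i ≤ N, cH d x y (p i) ≤ mR δ lam ε σ := by
  intro i hi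
  obtain ⟨T, hT⟩ : ∃ T, T = mT δ lam σ := ⟨_, rfl⟩
  obtain ⟨b, hb⟩ : ∃ b, b = mB δ lam := ⟨_, rfl⟩
  have hTb : T = 2 * b * σ := by
    rw [hT, hb, mT]
  have hb1 : 1 ≤ b := by
    rw [hb, mB]
    omega
  by_cases hiT : cH d x y (p i) ≤ T
  · refine hiT.trans ?_
    rw [mR, ← hT]
    push_cast
    have : (0 : ℤ) ≤ 2 * (mM δ lam ε σ * σ) := by positivity
    linarith
  -- the excursion
  obtain ⟨a, ha1, ha2, ha3⟩ := last (fun s => cH d x y (p s) ≤ T) i
    (by show cH d x y (p 0) ≤ T; rw [h0, cH_left hd]; positivity) hiT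
  obtain ⟨c, hc1, hc2, hc3, hc4⟩ := first (fun s => cH d x y (p s) ≤ T) i N hi
    (by show cH d x y (p N) ≤ T; rw [hN, cH_right hd]; positivity) hiT
  have hex : ∀ s, a < s → s < c → (T : ℤ) < cH d x y (p s) := by
    intro s h1 h2
    rcases Nat.lt_or_ge i s with h | h
    · exact not_le.1 (hc4 s h.le h2)
    · exact not_le.1 (ha3 s h1 h)
  obtain ⟨k, hk⟩ : ∃ k, k = (c - a - 1) / b := ⟨_, rfl⟩
  obtain ⟨r, hr⟩ : ∃ r, r = (c - a - 1) % b := ⟨_, rfl⟩
  have hkr : k * b + r = c - a - 1 := by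
    rw [hk, hr, Nat.mul_comm]
    exact Nat.div_add_mod _ _
  have hrb : r < b := by
    rw [hr]
    exact Nat.mod_lt _ hb1
  have e1 := blocks hd hF (x := x) (y := y) p hs (a + 1) hb1 k (by omega) (fun r' h1 h2 => by
    rw [← hTb]
    exact hex r' (by omega) (by omega))
  have e2 : |cP d x y (p a) - cP d x y (p (a + 1))| ≤ 2 * σ := by
    have h1 := cP_lip hd x y (p a) (p (a + 1))
    have h2 := hs a (by omega)
    refine h1.trans ?_
    omega
  have e3 : |cP d x y (p (a + 1 + k * b)) - cP d x y (p c)| ≤ 2 * (b * σ : ℕ) := by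
    have h1 := cP_lip hd x y (p (a + 1 + k * b)) (p c)
    have h2 := path_le hd p hs (a + 1 + k * b) r (by omega)
    rw [show a + 1 + k * b + r = c by omega] at h2
    have h3 : r * σ ≤ b * σ := Nat.mul_le_mul_right σ hrb.le
    refine h1.trans ?_
    have h4 := h2.trans h3
    omega
  have e4 : |cP d x y (p a) - cP d x y (p c)| ≤ 2 * σ + 4 * δ * k + 2 * (b * σ : ℕ) := by
    have h1 := abs_sub_le (cP d x y (p a)) (cP d x y (p (a + 1))) (cP d x y (p c))
    have h2 := abs_sub_le (cP d x y (p (a + 1))) (cP d x y (p (a + 1 + k * b))) (cP d x y (p c))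
    linarith
  have e5 := upper hd hF x y (p a) (p c)
  have ha2' : cH d x y (p a) ≤ T := ha2
  have hc3' : cH d x y (p c) ≤ T := hc3
  have e6 : 2 * (d (p a) (p c) : ℤ) ≤ 2 * σ + 4 * δ * k + 2 * (b * σ : ℕ) + 2 * T + 4 * δ := by
    linarith
  have e7 : 2 * d (p a) (p c) ≤ 2 * σ + 4 * δ * k + 2 * (b * σ) + 2 * T + 4 * δ := by
    exact_mod_cast e6
  have e8 := hq a c (by omega) hc2
  have e9 : c ≤ a + mM δ lam ε σ := by
    have h1 : 4 * lam * δ * k ≤ b * k := by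
      apply Nat.mul_le_mul_right
      rw [hb, mB]
      omega
    have h2 : lam * (2 * d (p a) (p c)) ≤
        lam * (2 * σ + 4 * δ * k + 2 * (b * σ) + 2 * T + 4 * δ) := Nat.mul_le_mul_left _ e7
    have h3 : lam * (2 * σ + 4 * δ * k + 2 * (b * σ) + 2 * T + 4 * δ) =
        lam * (2 * b * σ + 2 * σ + 2 * T + 4 * δ) + 4 * lam * δ * k := by ring
    have h4 : lam * (2 * d (p a) (p c)) = 2 * (lam * d (p a) (p c)) := by ring
    have h5 : mM δ lam ε σ = lam * (2 * b * σ + 2 * σ + 2 * T + 4 * δ) + 2 * ε := by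
      rw [mM, ← hT, ← hb]
    have h6 : b * k = k * b := Nat.mul_comm _ _
    omega
  have e10 := path_le hd p hs a (i - a) (by omega)
  rw [show a + (i - a) = i by omega] at e10
  have e11 : (i - a) * σ ≤ mM δ lam ε σ * σ := Nat.mul_le_mul_right σ (by omega)
  have e12 := cH_lip hd x y (p i) (p a)
  have e13 := hd.symm (p i) (p a)
  rw [abs_le] at e12
  rw [mR, ← hT]
  push_cast
  have e14 : ((d (p a) (p i) : ℕ) : ℤ) ≤ (mM δ lam ε σ : ℤ) * σ := by
    exact_mod_cast e10.trans e11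
  have e15 : (d (p i) (p a) : ℤ) = d (p a) (p i) := by exact_mod_cast e13
  linarith [e12.2]

end Pool.Agent.MPe54d61.Abs
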