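import Pool.Agent.Lib.MP_e54d61_gt.Abs.QM

/-!
# MP_e54d61_gt, Abs, Orbit: orbits which are quasi-geodesics (helper46)
-/

set_option autoImplicit false

namespace Pool.Agent.MPe54d61.Abs

variable {X : Type*} {d : X → X → ℕ} {G : Type*} [Group G] [MulAction G X] {x0 : X} {f : G}
  {δ lam : ℕ}

theorem orb_d (hI : Inv G d) (i j : ℕ) : d (f ^ i • x0) (f ^ (i + j) • x0) = d x0 (f ^ j • x0) := by
  rw [pow_add, mul_smul, hI]

theorem orb_d' (hd : GM d) (hI : Inv G d) (i j : ℕ) :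
    d (f ^ (i + j) • x0) (f ^ i • x0) = d x0 (f ^ j • x0) := by
  rw [hd.symm, orb_d hI]

theorem orb_tri (hd : GM d) (hI : Inv G d) (i j : ℕ) :
    d x0 (f ^ (i + j) • x0) ≤ d x0 (f ^ i • x0) + d x0 (f ^ j • x0) := by
  have h := hd.tri x0 (f ^ i • x0) (f ^ (i + j) • x0)
  rwa [orb_d hI] at h

theorem orb_mul (hd : GM d) (hI : Inv G d) (n k : ℕ) :
    d x0 (f ^ (k * n) • x0) ≤ k * d x0 (f ^ n • x0) := by
  induction k with
  | zero =>
    rw [Nat.zero_mul, pow_zero, one_smul, hd.self]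
    exact Nat.zero_le _
  | succ k ih =>
    rw [Nat.succ_mul, Nat.succ_mul]
    have h := orb_tri (f := f) (x0 := x0) hd hI (k * n) n
    omega

/-- the constant of the orbit -/
def oB (δ lam l0 : ℕ) : ℕ := mR δ lam 0 l0

/-- heights in the orbit -/
theorem orb_H (hd : GM d) (hF : FP d δ) (hI : Inv G d)
    (hlam : ∀ n : ℕ, n ≤ lam * d x0 (f ^ n • x0)) (N i : ℕ) (hi : i ≤ N) :
    cH d x0 (f ^ N • x0) (f ^ i • x0) ≤ oB δ lam (d x0 (f • x0)) := by
  refine morse hd hF (N := N) (lam := lam) (ε := 0) (σ := d x0 (f • x0)) (fun i => f ^ i • x0)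
    ?_ rfl ?_ ?_ i hi
  · show f ^ 0 • x0 = x0
    rw [pow_zero, one_smul]
  · intro i _
    show d (f ^ i • x0) (f ^ (i + 1) • x0) ≤ d x0 (f • x0)
    rw [orb_d hI, pow_one]
  · intro i j hij _
    show j ≤ i + lam * d (f ^ i • x0) (f ^ j • x0) + 0
    obtain ⟨k, rfl⟩ := Nat.exists_eq_add_of_le hij
    rw [orb_d hI]
    have := hlam k
    omega

/-- the distances are almost additive -/
theorem orb_add (hd : GM d) (hF : FP d δ) (hI : Inv G d)
    (hlam : ∀ n : ℕ, n ≤ lam * d x0 (f ^ n • x0)) (i j : ℕ) :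
    d x0 (f ^ i • x0) + d x0 (f ^ j • x0) ≤
      d x0 (f ^ (i + j) • x0) + oB δ lam (d x0 (f • x0)) := by
  have h := orb_H hd hF hI hlam (i + j) i (by omega)
  unfold cH at h
  rw [orb_d hI] at h
  omega

theorem orb_lin (hd : GM d) (hF : FP d δ) (hI : Inv G d)
    (hlam : ∀ n : ℕ, n ≤ lam * d x0 (f ^ n • x0)) (m n : ℕ) :
    n * d x0 (f ^ m • x0) ≤ d x0 ((f ^ m) ^ n • x0) + n * oB δ lam (d x0 (f • x0)) := by
  induction n with
  | zero =>
    rw [Nat.zero_mul]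
    exact Nat.zero_le _
  | succ n ih =>
    have h := orb_add hd hF hI hlam (m * n) m
    rw [pow_add, pow_mul] at h
    rw [Nat.succ_mul, Nat.succ_mul, pow_succ]
    omega

/-- the chain of jumps -/
theorem orb_ch (κ m n : ℕ) : Ch G d x0 (f ^ m • x0) κ x0 ((f ^ m) ^ n • x0)
    (n * (d x0 (f ^ m • x0) - κ)) := by
  induction n with
  | zero =>
    rw [Nat.zero_mul, pow_zero, one_smul]
    exact Ch.refl
  | succ n ih =>
    rw [Nat.succ_mul, pow_succ, mul_smul]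
    exact Ch.jump ((f ^ m) ^ n) ih

/-- the distance between the chain and the orbit (doubled) -/
def oK (δ κ lam l0 : ℕ) : ℕ := 2 * l0 + oB δ lam l0 + cR δ κ + 4 * δ

/-- the constant of reversibility -/
def oR (δ κ lam l0 : ℕ) : ℕ := 2 * oK δ κ lam l0 + oB δ lam l0

/-- the length of the word -/
def oW (δ κ lam l0 : ℕ) : ℕ :=
  2 + 2 * cR δ κ + 4 * δ + 5 * κ + 2 * oK δ κ lam l0 + 2 * oB δ lam l0

/-- **No jumps in the reverse direction.** -/
theorem nojump (hd : GM d) (hF : FP d δ) (hI : Inv G d)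
    (hlam : ∀ n : ℕ, n ≤ lam * d x0 (f ^ n • x0)) (κ m : ℕ)
    (hW : oW δ κ lam (d x0 (f • x0)) < d x0 (f ^ m • x0))
    (hm : ∀ g : G, d (g • x0) x0 ≤ oR δ κ lam (d x0 (f • x0)) →
      ¬ d (g • f ^ m • x0) ((f ^ m)⁻¹ • x0) ≤ oR δ κ lam (d x0 (f • x0))) (M : ℕ) :
    d (f ^ M • x0) x0 ≤ dw G d x0 (f ^ m • x0) κ (f ^ M • x0) x0 := by
  obtain ⟨l0, hl0⟩ : ∃ l0, l0 = d x0 (f • x0) := ⟨_, rfl⟩
  obtain ⟨W, hWd⟩ : ∃ W, W = d x0 (f ^ m • x0) := ⟨_, rfl⟩
  obtain ⟨B, hB⟩ : ∃ B, B = oB δ lam l0 := ⟨_, rfl⟩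
  obtain ⟨R, hR⟩ : ∃ R, R = cR δ κ := ⟨_, rfl⟩
  have hadd := fun i j => orb_add (f := f) (x0 := x0) hd hF hI hlam i j
  have hH := fun i hi => orb_H (f := f) (x0 := x0) hd hF hI hlam M i hi
  rw [← hl0] at hW hm hadd hH
  rw [← hB] at hadd hH
  rw [← hWd] at hW
  have hκ : 2 * κ ≤ d x0 (f ^ m • x0) := by
    rw [← hWd]
    unfold oW at hW
    omega
  obtain ⟨N, p, u, h1, h2, h3, h4⟩ := opt (G := G) hd hF hI hκ (f ^ M • x0) x0
  rw [← hR] at h2
  rcases h4 with h4 | ⟨s, g, hs1, hs2, hs3⟩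
  · exact h4
  exfalso
  rw [← hWd] at hs1 hs3
  unfold oW oK at hW
  rw [← hB, ← hR] at hW
  have hdse : d (p s) (p (s + W)) = W := by
    rw [hs2, hs3, hI, hWd]
  -- the direction
  have hdir : cP d (f ^ M • x0) x0 (p s) < cP d (f ^ M • x0) x0 (p (s + W)) := by
    by_contra hcon
    push Not at hcon
    obtain ⟨k, hk, hk2⟩ := ivt (N := N - (s + W)) (σ := 2)
      (fun k => cP d (f ^ M • x0) x0 (p (s + W + k))) (cP d (f ^ M • x0) x0 (p s)) hcon
      (by
        show cP d (f ^ M • x0) x0 (p s) ≤ cP d (f ^ M • x0) x0 (p (s + W + (N - (s + W))))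
        rw [show s + W + (N - (s + W)) = N by omega, h1.pN, cP_right hd]
        exact cP_le hd _ _ _) (by omega) (fun i hi => by
          have e1 := cP_lip hd (f ^ M • x0) x0 (p (s + W + i)) (p (s + W + (i + 1)))
          have e2 : d (p (s + W + i)) (p (s + W + (i + 1))) ≤ 1 := h1.st (s + W + i) (by omega)
          refine e1.trans ?_
          omega)
    have hk3 : |cP d (f ^ M • x0) x0 (p (s + W + k)) - cP d (f ^ M • x0) x0 (p s)| ≤ 2 := hk2
    have e1 := upper hd hF (f ^ M • x0) x0 (p (s + W + k)) (p s)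
    have e2 := h2 (s + W + k) (by omega)
    have e3 := h2 s (by omega)
    have e4 := h3 s (s + W + k) (by omega) (by omega)
    have e5 := hd.symm (p s) (p (s + W + k))
    omega
  have hup := upper hd hF (f ^ M • x0) x0 (p s) (p (s + W))
  have hHs := h2 s (by omega)
  have hHe := h2 (s + W) (by omega)
  rw [hdse] at hup
  -- the orbit is close
  have hnear : ∀ c : X, ∃ a ≤ M, 2 * (d (f ^ a • x0) c : ℤ) ≤
      2 * l0 + B + cH d (f ^ M • x0) x0 c + 4 * δ := by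
    intro c
    obtain ⟨i, hi, h5⟩ := near (N := M) (σ := l0) (R := B) hd hF (x := f ^ M • x0) (y := x0)
      (fun i => f ^ (M - i) • x0) (by show f ^ (M - 0) • x0 = f ^ M • x0; rw [Nat.sub_zero])
      (by show f ^ (M - M) • x0 = x0; rw [Nat.sub_self, pow_zero, one_smul])
      (by
        intro i hi
        show d (f ^ (M - i) • x0) (f ^ (M - (i + 1)) • x0) ≤ l0
        rw [show M - i = M - (i + 1) + 1 by omega, orb_d' hd hI, pow_one, hl0])
      (by
        intro i hi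
        show cH d (f ^ M • x0) x0 (f ^ (M - i) • x0) ≤ B
        rw [cH_symm hd]
        exact hH (M - i) (by omega)) c
    exact ⟨M - i, by omega, h5⟩
  obtain ⟨a, ha, ha2⟩ := hnear (p s)
  obtain ⟨b, hb, hb2⟩ := hnear (p (s + W))
  have la := cP_lip hd (f ^ M • x0) x0 (f ^ a • x0) (p s)
  have lb := cP_lip hd (f ^ M • x0) x0 (f ^ b • x0) (p (s + W))
  rw [abs_le] at la lb
  rw [abs_of_neg (by omega)] at hup
  have hPab : (2 * B : ℤ) < cP d (f ^ M • x0) x0 (f ^ b • x0) - cP d (f ^ M • x0) x0 (f ^ a • x0) := by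
    omega
  -- the coordinates of the orbit
  have hco : ∀ i ≤ M, cP d (f ^ M • x0) x0 (f ^ i • x0) =
      (d x0 (f ^ (M - i) • x0) : ℤ) + d (f ^ M • x0) x0 - d x0 (f ^ i • x0) := by
    intro i hi
    unfold cP
    have e1 : d (f ^ M • x0) (f ^ i • x0) = d x0 (f ^ (M - i) • x0) := by
      have e2 := orb_d' (f := f) (x0 := x0) hd hI i (M - i)
      rwa [show i + (M - i) = M by omega] at e2
    rw [e1, hd.symm (f ^ i • x0) x0]
  rw [hco a ha, hco b hb] at hPab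
  have hba : b < a := by
    by_contra hcon
    push Not at hcon
    have e1 := hadd a (b - a)
    have e2 := hadd (M - b) (b - a)
    rw [show a + (b - a) = b by omega] at e1
    rw [show M - b + (b - a) = M - a by omega] at e2
    omega
  obtain ⟨r, hr⟩ : ∃ r, a = b + r := ⟨a - b, by omega⟩
  have hdab : d (f ^ a • x0) (f ^ b • x0) = d x0 (f ^ r • x0) := by
    rw [hr, orb_d' hd hI]
  have t1 := hd.tri (f ^ a • x0) (p s) (p (s + W))
  have t2 := hd.tri (f ^ a • x0) (p (s + W)) (f ^ b • x0)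
  have t3 := hd.tri (p s) (f ^ a • x0) (f ^ b • x0)
  have t4 := hd.tri (p s) (f ^ b • x0) (p (s + W))
  have t5 := hd.symm (p s) (f ^ a • x0)
  have t6 := hd.symm (p (s + W)) (f ^ b • x0)
  -- the difference between `r` and `m`
  have hrm : d ((f ^ r)⁻¹ • x0) ((f ^ m)⁻¹ • x0) ≤ (2 * l0 + B + R + 4 * δ) + B := by
    rcases Nat.le_total r m with h5 | h5
    · obtain ⟨q, hq⟩ := Nat.exists_eq_add_of_le h5
      have e1 := hadd r q
      rw [← hq, ← hWd] at e1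
      have e2 : d ((f ^ r)⁻¹ • x0) ((f ^ m)⁻¹ • x0) = d x0 (f ^ q • x0) := by
        have e3 := hI (f ^ m) ((f ^ r)⁻¹ • x0) ((f ^ m)⁻¹ • x0)
        rw [← e3, smul_inv_smul, smul_smul, hq, Nat.add_comm r q, pow_add, mul_assoc,
          mul_inv_cancel, mul_one, hd.symm]
      rw [e2]
      omega
    · obtain ⟨q, hq⟩ := Nat.exists_eq_add_of_le h5
      have e1 := hadd m q
      rw [← hq, ← hWd] at e1
      have e2 : d ((f ^ r)⁻¹ • x0) ((f ^ m)⁻¹ • x0) = d x0 (f ^ q • x0) := by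
        have e3 := hI (f ^ r) ((f ^ r)⁻¹ • x0) ((f ^ m)⁻¹ • x0)
        rw [← e3, smul_inv_smul, smul_smul, hq, Nat.add_comm m q, pow_add, mul_assoc,
          mul_inv_cancel, mul_one]
      rw [e2]
      omega
  refine hm ((f ^ a)⁻¹ * g) ?_ ?_
  · have e1 : d (((f ^ a)⁻¹ * g) • x0) x0 = d (p s) (f ^ a • x0) := by
      rw [hs2, ← hI (f ^ a) (((f ^ a)⁻¹ * g) • x0) x0, smul_smul, mul_inv_cancel_left]
    rw [e1]
    unfold oR oK
    rw [← hB, ← hR]
    omega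
  · have e1 := hd.tri (((f ^ a)⁻¹ * g) • f ^ m • x0) ((f ^ r)⁻¹ • x0) ((f ^ m)⁻¹ • x0)
    have e2 : d (((f ^ a)⁻¹ * g) • f ^ m • x0) ((f ^ r)⁻¹ • x0) = d (p (s + W)) (f ^ b • x0) := by
      rw [hs3, ← hI (f ^ a) (((f ^ a)⁻¹ * g) • f ^ m • x0) ((f ^ r)⁻¹ • x0), smul_smul,
        mul_inv_cancel_left, smul_smul, hr, pow_add, mul_smul (f ^ b) (f ^ r), smul_inv_smul]
    rw [e2] at e1
    unfold oR oK
    rw [← hB, ← hR]
    omega

end Pool.Agent.MPe54d61.Abs
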