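import Pool.Agent.Lib.MP_e54d61_gt.Abs.Chain
import Pool.Agent.Lib.MP_e54d61_gt.Abs.Morse

/-!
# MP_e54d61_gt, Abs, QM: the counting quasimorphism (helper46)
-/

set_option autoImplicit false

namespace Pool.Agent.MPe54d61.Abs

variable {X : Type*} {d : X → X → ℕ} {G : Type*} [Group G] [MulAction G X] {w0 w1 : X} {κ δ : ℕ}

/-- the Morse constant of optimal chains -/
def cR (δ κ : ℕ) : ℕ := mR δ 2 (5 * κ) 1

/-- optimal chains -/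
theorem opt (hd : GM d) (hF : FP d δ) (hI : Inv G d) (hκ : 2 * κ ≤ d w0 w1) (x y : X) :
    ∃ (N : ℕ) (p : ℕ → X) (u : ℕ → ℕ), RD G d w0 w1 κ x y (dw G d w0 w1 κ x y) N p u ∧
      (∀ i ≤ N, cH d x y (p i) ≤ cR δ κ) ∧
      (∀ i j, i ≤ j → j ≤ N → j ≤ i + 2 * d (p i) (p j) + 5 * κ) ∧
      (d x y ≤ dw G d w0 w1 κ x y ∨ ∃ (s : ℕ) (g : G), s + d w0 w1 ≤ N ∧ p s = g • w0 ∧
        p (s + d w0 w1) = g • w1) := by
  obtain ⟨N, p, u, h1, h2⟩ := real hd hI hκ (dw_ch (G := G) (w0 := w0) (w1 := w1) (κ := κ) hd x y)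
  exact ⟨N, p, u, h1, morse hd hF p h1.p0 h1.pN h1.st (fun i j hij hj => h1.qg hd i j hij hj),
    fun i j hij hj => h1.qg hd i j hij hj, h2⟩

/-- `dw` is almost additive -/
theorem qa (hd : GM d) (hF : FP d δ) (hI : Inv G d) (hκ : 2 * κ ≤ d w0 w1) (x y c : X) (B : ℕ)
    (hc : cH d x y c ≤ B) : dw G d w0 w1 κ x c + dw G d w0 w1 κ c y ≤
      dw G d w0 w1 κ x y + (2 * κ + 2 + cR δ κ + B + 4 * δ) := by
  obtain ⟨N, p, u, h1, h2, -, -⟩ := opt (G := G) hd hF hI hκ x y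
  obtain ⟨i, hi, h3⟩ := near hd hF p h1.p0 h1.pN h1.st h2 c
  obtain ⟨m1, hm1, hc1⟩ := h1.a1 i hi
  obtain ⟨m2, hm2, hc2⟩ := h1.a2 i hi
  have h4 := dw_le (hc1.trans (Ch.dist hd (p i) c))
  have h5 := dw_le ((Ch.dist hd c (p i)).trans hc2)
  have h6 := hd.symm c (p i)
  omega

/-- the defect -/
def cD (δ κ : ℕ) : ℕ := 2 * κ + 2 + cR δ κ + (2 * δ + 1) + 4 * δ

/-- the antisymmetric part of `dw` -/
noncomputable def Dl (G : Type*) [Group G] [MulAction G X] (d : X → X → ℕ) (w0 w1 : X) (κ : ℕ)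
    (x y : X) : ℤ := (dw G d w0 w1 κ x y : ℤ) - dw G d w0 w1 κ y x

theorem Dl_add (hd : GM d) (hF : FP d δ) (hI : Inv G d) (hκ : 2 * κ ≤ d w0 w1) (x y c : X)
    (hc : cH d x y c ≤ 2 * δ + 1) :
    |Dl G d w0 w1 κ x y - Dl G d w0 w1 κ x c - Dl G d w0 w1 κ c y| ≤ cD δ κ := by
  have h1 := qa (G := G) hd hF hI hκ x y c (2 * δ + 1) (by exact_mod_cast hc)
  have h2 := qa (G := G) hd hF hI hκ y x c (2 * δ + 1) (by
    rw [cH_symm hd]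
    exact_mod_cast hc)
  have h3 := dw_tri (G := G) (w0 := w0) (w1 := w1) (κ := κ) hd x c y
  have h4 := dw_tri (G := G) (w0 := w0) (w1 := w1) (κ := κ) hd y c x
  rw [abs_le]
  unfold Dl cD
  omega

theorem Dl_tri (hd : GM d) (hF : FP d δ) (hI : Inv G d) (hκ : 2 * κ ≤ d w0 w1) (x y z : X) :
    |Dl G d w0 w1 κ x y + Dl G d w0 w1 κ y z + Dl G d w0 w1 κ z x| ≤ 3 * cD δ κ := by
  obtain ⟨c, h1, h2, h3⟩ := center hd hF x y z
  have g1 := Dl_add (G := G) hd hF hI hκ x y c h1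
  have g2 := Dl_add (G := G) hd hF hI hκ y z c h2
  have g3 := Dl_add (G := G) hd hF hI hκ z x c h3
  rw [abs_le] at g1 g2 g3 ⊢
  unfold Dl at *
  omega

/-- the quasimorphism -/
noncomputable def ph (d : X → X → ℕ) (w0 w1 : X) (κ : ℕ) (x0 : X) (g : G) : ℤ :=
  Dl G d w0 w1 κ x0 (g • x0)

theorem ph_qm (hd : GM d) (hF : FP d δ) (hI : Inv G d) (hκ : 2 * κ ≤ d w0 w1) (x0 : X) (g h : G) :
    |ph d w0 w1 κ x0 (g * h) - ph d w0 w1 κ x0 g - ph d w0 w1 κ x0 h| ≤ 3 * cD δ κ := by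
  have h1 := Dl_tri (G := G) hd hF hI hκ x0 (g • x0) ((g * h) • x0)
  have h2 : Dl G d w0 w1 κ (g • x0) ((g * h) • x0) = ph d w0 w1 κ x0 h := by
    unfold ph Dl
    rw [mul_smul, dw_smul hd hI, dw_smul hd hI]
  rw [h2] at h1
  have h3 : Dl G d w0 w1 κ ((g * h) • x0) x0 = - ph d w0 w1 κ x0 (g * h) := by
    unfold ph Dl
    ring
  rw [h3] at h1
  have h4 : Dl G d w0 w1 κ x0 (g • x0) = ph d w0 w1 κ x0 g := rfl
  rw [h4] at h1
  rw [abs_le] at h1 ⊢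
  constructor <;> linarith [h1.1, h1.2]

end Pool.Agent.MPe54d61.Abs
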