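import Pool.Agent.Lib.MP_e54d61_gt.Abs.QM

/-!
# MP_e54d61_gt, Abs, UJump: optimal chains with jumps go forward (helper66)
-/

set_option autoImplicit false

namespace Pool.Agent.MPe54d61.Abs

variable {X : Type*} {d : X → X → ℕ} {G : Type*} [Group G] [MulAction G X] {w0 w1 : X} {κ δ : ℕ}

/-- either chains from `a` to `b` are not shorter than the distance, or there is a copy of `w0, w1` close to the
geodesic from `a` to `b` and in the direction of this geodesic -/
theorem u_jump (hd : GM d) (hF : FP d δ) (hI : Inv G d) (hκ : 2 * κ ≤ d w0 w1)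
    (hW : 2 + 2 * cR δ κ + 4 * δ + 5 * κ < d w0 w1) (a b : X) :
    d a b ≤ dw G d w0 w1 κ a b ∨ ∃ g : G, cH d a b (g • w0) ≤ cR δ κ ∧
      cH d a b (g • w1) ≤ cR δ κ ∧ cP d a b (g • w0) < cP d a b (g • w1) := by
  obtain ⟨N, p, u, h1, h2, h3, h4⟩ := opt (G := G) hd hF hI hκ a b
  rcases h4 with h4 | ⟨s, g, hs1, hs2, hs3⟩
  · exact Or.inl h4
  right
  refine ⟨g, ?_, ?_, ?_⟩
  · rw [← hs2]
    exact h2 s (by omega)
  · rw [← hs3]
    exact h2 _ hs1
  · rw [← hs2, ← hs3]
    obtain ⟨W, hWd⟩ : ∃ W, W = d w0 w1 := ⟨_, rfl⟩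
    rw [← hWd] at hs1 hs3 hW ⊢
    by_contra hcon
    push Not at hcon
    obtain ⟨k, hk, hk2⟩ := ivt (N := N - (s + W)) (σ := 2)
      (fun k => cP d a b (p (s + W + k))) (cP d a b (p s)) hcon
      (by
        show cP d a b (p s) ≤ cP d a b (p (s + W + (N - (s + W))))
        rw [show s + W + (N - (s + W)) = N by omega, h1.pN, cP_right hd]
        exact cP_le hd _ _ _) (by omega) (fun i hi => by
          have e1 := cP_lip hd a b (p (s + W + i)) (p (s + W + (i + 1)))
          have e2 : d (p (s + W + i)) (p (s + W + (i + 1))) ≤ 1 := h1.st (s + W + i) (by omega)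
          refine e1.trans ?_
          omega)
    have hk3 : |cP d a b (p (s + W + k)) - cP d a b (p s)| ≤ 2 := hk2
    have e1 := upper hd hF a b (p (s + W + k)) (p s)
    have e2 := h2 (s + W + k) (by omega)
    have e3 := h2 s (by omega)
    have e4 := h3 s (s + W + k) (by omega) (by omega)
    have e5 := hd.symm (p s) (p (s + W + k))
    omega

end Pool.Agent.MPe54d61.Abs
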