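import Pool.Agent.Lib.MP_e54d61_gt.Abs.URev

/-!
# MP_e54d61_gt, Abs, UPair: the two elements (helper66)
-/

set_option autoImplicit false

namespace Pool.Agent.MPe54d61.Abs

variable {X : Type*} {d : X → X → ℕ} {G : Type*} [Group G] [MulAction G X] {x : X} {f : G}
  {δ B R : ℕ}

theorem u_pair (hd : GM d) (hF : FP d δ) (hI : Inv G d)
    (hadd : ∀ i j : ℕ, d x (f ^ i • x) + d x (f ^ j • x) ≤ d x (f ^ (i + j) • x) + B)
    (M : ℕ) (g : G) (h1 : cH d (f ^ M • x) x (g • x) ≤ R)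
    (h2 : cH d (f ^ M • x) x (g • f ^ 2 • x) ≤ R)
    (h3 : cP d (f ^ M • x) x (g • x) < cP d (f ^ M • x) x (g • f ^ 2 • x))
    (hl : 3 * R + 4 * δ + 3 * B + 1 ≤ d x (f • x)) :
    ∃ k : ℕ, (∃ y : X, d y (((f ^ k)⁻¹ * g) • y) ≤ 2 + R + 2 * B + 3 * δ) ∧
      ∃ y : X, d y (((f ^ (k + 1))⁻¹ * g) • y) ≤ 2 + R + 2 * B + 3 * δ := by
  classical
  obtain ⟨D, hD⟩ : ∃ D : ℕ → ℕ, ∀ n, D n = d x (f ^ n • x) := ⟨fun n => d x (f ^ n • x), fun n => rfl⟩
  have hadd' : ∀ i j, D i + D j ≤ D (i + j) + B := fun i j => by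
    rw [hD, hD, hD]
    exact hadd i j
  have htri : ∀ i j, D (i + j) ≤ D i + D j := fun i j => by
    rw [hD, hD, hD]
    exact orb_tri hd hI i j
  have hl' : 3 * R + 4 * δ + 3 * B + 1 ≤ D 1 := by
    rw [hD, pow_one]
    exact hl
  -- the new end
  have a1 := hadd' 4 M
  have a2 := htri 4 M
  rw [Nat.add_comm 4 M] at a1 a2
  have a3 : D 2 + D 2 ≤ D 4 + B := hadd' 2 2
  have a4 : D 1 + D 1 ≤ D 2 + B := hadd' 1 1
  have eA : d (f ^ (M + 4) • x) (f ^ M • x) = D 4 := by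
    rw [hD]
    exact orb_d' hd hI M 4
  have eAx : d (f ^ (M + 4) • x) x = D (M + 4) := by rw [hD, hd.symm]
  have eMx : d (f ^ M • x) x = D M := by rw [hD, hd.symm]
  have eW : d (g • x) (g • f ^ 2 • x) = D 2 := by rw [hI, hD]
  have u1 := upper hd hF (f ^ M • x) x (g • x) (g • f ^ 2 • x)
  rw [eW, abs_of_neg (by omega)] at u1
  have b1 := hd.tri (f ^ (M + 4) • x) (f ^ M • x) (g • x)
  have b2 := hd.tri (f ^ (M + 4) • x) (f ^ M • x) (g • f ^ 2 • x)
  have b3 := hd.tri (f ^ (M + 4) • x) (g • x) x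
  have b4 := hd.tri (f ^ (M + 4) • x) (g • f ^ 2 • x) x
  rw [eA] at b1 b2
  rw [eAx] at b3 b4
  unfold cH at h1 h2 u1
  unfold cP at h3 u1
  rw [eMx] at h1 h2 h3 u1
  -- heights and coordinates for the new end
  have c1 : cH d (f ^ (M + 4) • x) x (g • x) ≤ ((R + B : ℕ) : ℤ) := by
    unfold cH
    rw [eAx]
    omega
  have c2 : cH d (f ^ (M + 4) • x) x (g • f ^ 2 • x) ≤ ((R + B : ℕ) : ℤ) := by
    unfold cH
    rw [eAx]
    omega
  have c3 : cP d (f ^ (M + 4) • x) x (g • x) + 2 * D 2 ≤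
      cP d (f ^ (M + 4) • x) x (g • f ^ 2 • x) + 3 * R + 4 * δ + B := by
    unfold cP
    omega
  have c4 := cP_le hd (f ^ (M + 4) • x) x (g • f ^ 2 • x)
  rw [eAx] at c4
  have c5 : (D 4 : ℤ) + D (M + 4) ≤ cP d (f ^ (M + 4) • x) x (g • x) + D M + 2 * R + B := by
    unfold cP
    rw [eAx]
    omega
  -- the coordinates of the orbit
  have hco : ∀ i ≤ M + 4, cP d (f ^ (M + 4) • x) x (f ^ i • x) =
      (D (M + 4 - i) : ℤ) + D (M + 4) - D i := by
    intro i hi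
    unfold cP
    have e2 := orb_d' (f := f) (x0 := x) hd hI i (M + 4 - i)
    rw [show i + (M + 4 - i) = M + 4 by omega] at e2
    rw [e2, hd.symm (f ^ i • x) x, eAx, hD i, hD (M + 4 - i)]
  have hmono : ∀ i, i + 1 ≤ M + 4 → cP d (f ^ (M + 4) • x) x (f ^ (i + 1) • x) ≤
      cP d (f ^ (M + 4) • x) x (f ^ i • x) := by
    intro i hi
    rw [hco i (by omega), hco (i + 1) hi]
    have e1 := hadd' i 1
    have e2 := hadd' (M + 4 - (i + 1)) 1
    rw [show M + 4 - (i + 1) + 1 = M + 4 - i by omega] at e2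
    omega
  have hex : ∃ j, j ≤ M + 2 ∧
      cP d (f ^ (M + 4) • x) x (f ^ j • x) < cP d (f ^ (M + 4) • x) x (g • x) := by
    refine ⟨M + 2, le_rfl, ?_⟩
    rw [hco (M + 2) (by omega), show M + 4 - (M + 2) = 2 by omega]
    have e1 := hadd' M 2
    omega
  obtain ⟨j, hj⟩ : ∃ j, j = Nat.find hex := ⟨_, rfl⟩
  obtain ⟨hj1, hj2⟩ := Nat.find_spec hex
  rw [← hj] at hj1 hj2
  have hj3 : ∀ i < j, cP d (f ^ (M + 4) • x) x (g • x) ≤
      cP d (f ^ (M + 4) • x) x (f ^ i • x) := by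
    intro i hi
    have e1 := Nat.find_min hex (m := i) (by omega)
    by_contra hcon
    exact e1 ⟨by omega, by omega⟩
  have hj4 : 2 ≤ j := by
    by_contra hcon
    have e1 : cP d (f ^ (M + 4) • x) x (f ^ 1 • x) ≤ cP d (f ^ (M + 4) • x) x (f ^ j • x) := by
      have e2 : j = 0 ∨ j = 1 := by omega
      rcases e2 with e2 | e2
      · rw [e2]
        exact hmono 0 (by omega)
      · rw [e2]
    rw [hco 1 (by omega), show M + 4 - 1 = M + 3 by omega] at e1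
    have e3 := htri 1 (M + 3)
    rw [show 1 + (M + 3) = M + 4 by omega] at e3
    omega
  obtain ⟨k, rfl⟩ : ∃ k, j = k + 2 := ⟨j - 2, by omega⟩
  have k1 := hj3 (k + 1) (by omega)
  have k0 := hmono k (by omega)
  have k3 := hmono (k + 2) (by omega)
  have eK : 2 + (R + B) + B + 3 * δ = 2 + R + 2 * B + 3 * δ := by omega
  refine ⟨k, ?_, ?_⟩
  · rw [← eK]
    exact u_meet (R := R + B) hd hF hI hadd (M + 4) k (by omega) g c1 c2 (by omega) (by omega)
      (by omega)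
  · rw [← eK]
    exact u_meet (R := R + B) hd hF hI hadd (M + 4) (k + 1) (by omega) g c1 c2 (by omega)
      (by omega) (by
        rw [show k + 1 + 2 = k + 2 + 1 by omega]
        omega)

end Pool.Agent.MPe54d61.Abs
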