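import Pool.Agent.Lib.MP_e54d61_gt.Abs.UOrb
import Pool.Agent.Lib.MP_e54d61_gt.Abs.UJump
import Pool.Agent.Lib.MP_e54d61_gt.Abs.UPair
import Pool.Agent.Lib.MP_e54d61_gt.Abs.Main

/-!
# MP_e54d61_gt, Abs, UMain: the gap theorem (helper66)

`G` acts on a hyperbolic graph and the conjugation invariant length `ν` is bounded by the displacement at every
vertex.  Then there are constants `K`, `E`, depending only on `δ` and `C`, such that every `f` with
`scl f < 1 / E` satisfies `ν f ≤ K`.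
-/

set_option autoImplicit false

namespace Pool.Agent.MPe54d61.Abs

open Filter Topology

variable {X : Type*} {d : X → X → ℕ} {G : Type*} [Group G] [MulAction G X] {x : X} {f : G} {δ : ℕ}

/-- a lower bound of the commutator length of the powers of `f` -/
theorem qm_scl {φ : G → ℤ} {D : ℕ} (hφ : ∀ g h, |φ (g * h) - φ g - φ h| ≤ D) {f : G} {m : ℕ}
    (h : ∀ n : ℕ, (n : ℤ) ≤ |φ ((f ^ m) ^ n)|) {n k : ℕ} (hk : PrC k (f ^ n)) :
    n ≤ 8 * D * m * k := by
  have key : ∀ t : ℕ, ((n * t : ℕ) : ℤ) ≤ 8 * D * ((t * (m * k) : ℕ) : ℤ) + D := by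
    intro t
    have h1 := (hk.pow m).pow t
    have h2 : ((f ^ n) ^ m) ^ t = (f ^ m) ^ (n * t) := by
      rw [← pow_mul, ← pow_mul, ← pow_mul]
      congr 1
      ring
    rw [h2] at h1
    exact (h (n * t)).trans (qm_comm hφ h1)
  have h1 := key (D + 1)
  by_contra hcon
  push Not at hcon
  have h2 : (8 * D * m * k : ℤ) + 1 ≤ n := by exact_mod_cast hcon
  push_cast at h1
  nlinarith

/-- the constants: heights of the chains, the smallest displacement which is considered as large, and the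
displacement of the two elements -/
def uR (δ : ℕ) : ℕ := cR δ (8 * δ + 1)

def uL (δ : ℕ) : ℕ := 3 * uR δ + 74 * δ + 8

def uK (δ : ℕ) : ℕ := 2 + uR δ + 2 * (8 * δ) + 3 * δ

def uE (δ : ℕ) : ℕ := 8 * (3 * cD δ (8 * δ + 1)) * 2

/-- large minimal displacement: `scl f` is not small, or `f` is a product of two elements with small
displacement -/
theorem u_large (hd : GM d) (hF : FP d δ) (hI : Inv G d)
    (hmin : ∀ y : X, d x (f • x) ≤ d y (f • y)) (hl : uL δ ≤ d x (f • x)) {n k : ℕ}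
    (hk : PrC k (f ^ n)) (hn : uE δ * k < n) :
    ∃ a b : G, f = a * b⁻¹ ∧ (∃ y : X, d y (a • y) ≤ uK δ) ∧ ∃ y : X, d y (b • y) ≤ uK δ := by
  unfold uL uR at hl
  have hadd := u_add hd hF hI hmin (by omega)
  have a2 := hadd 1 1
  rw [pow_one] at a2
  have hκ : 2 * (8 * δ + 1) ≤ d x (f ^ 2 • x) := by
    have : d x (f ^ (1 + 1) • x) = d x (f ^ 2 • x) := rfl
    omega
  have hW : 2 + 2 * cR δ (8 * δ + 1) + 4 * δ + 5 * (8 * δ + 1) < d x (f ^ 2 • x) := by
    have : d x (f ^ (1 + 1) • x) = d x (f ^ 2 • x) := rfl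
    omega
  by_cases hj : ∀ M : ℕ, d (f ^ M • x) x ≤ dw G d x (f ^ 2 • x) (8 * δ + 1) (f ^ M • x) x
  · exfalso
    have h1 := qm_scl (φ := ph d x (f ^ 2 • x) (8 * δ + 1) x) (D := 3 * cD δ (8 * δ + 1)) (m := 2)
      (f := f) (fun g h => by
        have := ph_qm (G := G) hd hF hI hκ x g h
        push_cast
        exact this) (fun n => by
        have h1 := hj (2 * n)
        rw [pow_mul] at h1
        have h2 := dw_le (orb_ch (G := G) (d := d) (x0 := x) (f := f) (8 * δ + 1) 2 n)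
        have h3 := u_lin hadd 2 n
        have h4 := hd.symm x ((f ^ 2) ^ n • x)
        have h5 : n * (d x (f ^ 2 • x) - (8 * δ + 1)) + n * (8 * δ + 1) =
            n * d x (f ^ 2 • x) := by
          rw [← Nat.mul_add]
          congr 1
          omega
        have h6 : n * (8 * δ + 1) = n * (8 * δ) + n := by
          rw [Nat.mul_add, Nat.mul_one]
        have h7 : ph d x (f ^ 2 • x) (8 * δ + 1) x ((f ^ 2) ^ n) ≤ - (n : ℤ) := by
          unfold ph Dl
          omega
        exact (le_neg.2 h7).trans (neg_le_abs _)) hk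
    unfold uE at hn
    omega
  · push Not at hj
    obtain ⟨M, hM⟩ := hj
    rcases u_jump (G := G) hd hF hI hκ hW (f ^ M • x) x with h1 | ⟨g, h1, h2, h3⟩
    · omega
    · obtain ⟨k, ⟨y, hy⟩, z, hz⟩ := u_pair hd hF hI hadd M g h1 h2 h3 (by omega)
      refine ⟨(f ^ k)⁻¹ * g, (f ^ (k + 1))⁻¹ * g, ?_, ⟨y, ?_⟩, z, ?_⟩
      · rw [mul_inv_rev, inv_inv, pow_succ]
        group
      · unfold uK uR
        omega
      · unfold uK uR
        omega

/-- **The gap theorem.** -/
theorem gap (hd : GM d) (hF : FP d δ) (hI : Inv G d) (x0 : X) {ν : G → ℕ} (hν : Len ν) (C : ℕ)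
    (hC : ∀ (y : X) (g : G), ν g ≤ C * (1 + d y (g • y))) {n k : ℕ}
    (hk : PrC k (f ^ n)) (hn : uE δ * k < n) : ν f ≤ C * (1 + uL δ) + 2 * (C * (1 + uK δ)) := by
  obtain ⟨x, hx⟩ : ∃ x : X, ∀ y : X, d x (f • x) ≤ d y (f • y) := by
    classical
    have hex : ∃ l, ∃ x : X, d x (f • x) = l := ⟨_, x0, rfl⟩
    obtain ⟨x, hx⟩ := Nat.find_spec hex
    refine ⟨x, fun y => ?_⟩
    rw [hx]
    exact Nat.find_min' hex ⟨y, rfl⟩
  rcases Nat.lt_or_ge (d x (f • x)) (uL δ) with h1 | h1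
  · have h2 := hC x f
    have h3 : C * (1 + d x (f • x)) ≤ C * (1 + uL δ) := Nat.mul_le_mul_left _ (by omega)
    omega
  · obtain ⟨a, b, hab, ⟨y, hy⟩, z, hz⟩ := u_large hd hF hI hx h1 hk hn
    have h2 := (hC y a).trans (Nat.mul_le_mul_left C (show 1 + d y (a • y) ≤ 1 + uK δ by omega))
    have h3 := (hC z b).trans (Nat.mul_le_mul_left C (show 1 + d z (b • z) ≤ 1 + uK δ by omega))
    have h4 := hν.mul a b⁻¹
    rw [hν.inv, ← hab] at h4
    omega

end Pool.Agent.MPe54d61.Abs
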