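import Pool.Agent.Lib.MP_e54d61_gt.Abs.Graph
import Pool.Agent.Lib.MP_e54d61_gt.Abs.UMain

/-!
# MP_e54d61_gt, Abs, UGraph: the gap theorem for connected graphs (helper66)
-/

set_option autoImplicit false

namespace Pool.Agent.MPe54d61.Abs

variable {X : Type*}

/-- **Theorem (gap).** A group `G` acts on a connected graph with sets `L x y` as in the criterion for
hyperbolicity, and the conjugation invariant length `ν` is bounded by the displacement of every vertex.  There
are constants `K`, `E` such that for every `f`: if some power `f ^ n` is a product of `k` commutators with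
`E * k < n` (that is, `scl f < 1 / E`), then `ν f ≤ K`. -/
theorem gap_graph {G : Type*} [Group G] [MulAction G X] (Gr : SimpleGraph X) (hc : Gr.Connected)
    (ha : ∀ (g : G) (x y : X), Gr.Adj x y → Gr.Adj (g • x) (g • y)) (L : X → X → Set X) (h : ℕ)
    (hL : GG (fun x y => Gr.dist x y) L h) {ν : G → ℕ} (hν : Len ν) (C : ℕ)
    (hC : ∀ (x : X) (g : G), ν g ≤ C * (1 + Gr.dist x (g • x))) :
    ∃ K E : ℕ, ∀ (f : G) (n k : ℕ), PrC k (f ^ n) → E * k < n → ν f ≤ K := by
  obtain ⟨δ, hF⟩ := guess (gm_dist Gr hc) hL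
  obtain ⟨x0⟩ := hc.nonempty
  exact ⟨C * (1 + uL δ) + 2 * (C * (1 + uK δ)), uE δ, fun f n k hk hn =>
    gap (gm_dist Gr hc) hF (inv_dist Gr hc ha) x0 hν C hC hk hn⟩

/-- if the stable commutator length of `f` is zero, so is the one of `f ^ m` -/
theorem SclZ.pow {G : Type*} [Group G] {f : G} (hs : SclZ f) (m : ℕ) : SclZ (f ^ m) := by
  intro ε hε
  obtain ⟨n, k, h1, h2, h3⟩ := hs (ε / (m + 1)) (by positivity)
  refine ⟨n, m * k, h1, ?_, ?_⟩
  · push_cast
    have h4 : (m : ℝ) * k ≤ m * (ε / (m + 1) * n) := mul_le_mul_of_nonneg_left h2 (Nat.cast_nonneg m)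
    refine h4.trans ?_
    have h5 : (m : ℝ) / (m + 1) ≤ 1 := by
      rw [div_le_one (by positivity)]
      linarith
    have h6 : (0 : ℝ) ≤ ε * n := by positivity
    calc (m : ℝ) * (ε / (m + 1) * n) = (m : ℝ) / (m + 1) * (ε * n) := by ring
      _ ≤ 1 * (ε * n) := mul_le_mul_of_nonneg_right h5 h6
      _ = ε * n := one_mul _
  · have h4 := h3.pow m
    rwa [← pow_mul, Nat.mul_comm n m, pow_mul] at h4

/-- a number `n` and a product of `k` commutators as in the gap theorem -/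
theorem SclZ.small {G : Type*} [Group G] {f : G} (hs : SclZ f) (E : ℕ) :
    ∃ n k : ℕ, 1 ≤ n ∧ PrC k (f ^ n) ∧ E * k < n := by
  obtain ⟨n, k, h1, h2, h3⟩ := hs (1 / (E + 1)) (by positivity)
  refine ⟨n, k, h1, h3, ?_⟩
  have hE : (0 : ℝ) ≤ E := Nat.cast_nonneg E
  have hn : (1 : ℝ) ≤ n := by exact_mod_cast h1
  have h4 : ((E : ℝ) + 1) * k ≤ n := by
    have h5 := mul_le_mul_of_nonneg_left h2 (show (0 : ℝ) ≤ (E : ℝ) + 1 by positivity)
    calc ((E : ℝ) + 1) * k ≤ ((E : ℝ) + 1) * (1 / (E + 1) * n) := h5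
      _ = n := by field_simp
  have h5 : (E + 1) * k ≤ n := by exact_mod_cast h4
  rcases Nat.eq_zero_or_pos k with h6 | h6
  · rw [h6]
    omega
  · have : (E + 1) * k = E * k + k := by ring
    omega

/-- **Corollary.** In the situation of `gap_graph` there is a constant `K` such that `ν (f ^ m) ≤ K` for all `m`
and all `f` with `scl f = 0`. -/
theorem gap_zero {G : Type*} [Group G] {ν : G → ℕ}
    (h : ∃ K E : ℕ, ∀ (f : G) (n k : ℕ), PrC k (f ^ n) → E * k < n → ν f ≤ K) :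
    ∃ K : ℕ, ∀ f : G, SclZ f → ∀ m : ℕ, ν (f ^ m) ≤ K := by
  obtain ⟨K, E, h⟩ := h
  refine ⟨K, fun f hs m => ?_⟩
  obtain ⟨n, k, -, h2, h3⟩ := (hs.pow m).small E
  exact h _ n k h2 h3

end Pool.Agent.MPe54d61.Abs
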