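import Pool.Agent.Lib.MP_e54d61_gt.Abs.Orbit

/-!
# MP_e54d61_gt, Abs, UOrb: orbits of points of minimal displacement (helper66)

If `x` has minimal displacement `l` under `f`, and `l` is large compared with `δ`, then the distances along the
orbit of `x` are additive up to `8 δ`; the constant does not depend on `f`.
-/

set_option autoImplicit false

namespace Pool.Agent.MPe54d61.Abs

variable {X : Type*} {d : X → X → ℕ} {G : Type*} [Group G] [MulAction G X] {x : X} {f : G} {δ : ℕ}

/-- two steps of the orbit -/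
theorem u_two (hd : GM d) (hF : FP d δ) (hI : Inv G d)
    (hmin : ∀ y : X, d x (f • x) ≤ d y (f • y)) (hl : 4 * δ + 2 ≤ d x (f • x)) :
    2 * d x (f • x) ≤ d x (f ^ 2 • x) + 4 * δ := by
  obtain ⟨l, hl'⟩ : ∃ l, l = d x (f • x) := ⟨_, rfl⟩
  obtain ⟨m, hm1, hm2⟩ := geo_pt hd x (f • x) (l / 2) (by omega)
  have h1 := hmin m
  have h2 : d (f • x) (f • m) = l / 2 := by rw [hI, hm1]
  have h3 : d (f • m) (f ^ 2 • x) = l - l / 2 := by rw [pow_two, mul_smul, hI, hm2, ← hl']
  have h4 : d (f • x) (f ^ 2 • x) = l := by rw [pow_two, mul_smul, hI, ← hl']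
  have e1 := hF m (f • m) (f • x) x
  have e2 := hF x (f • m) (f • x) (f ^ 2 • x)
  have s1 := hd.symm (f • x) x
  have s2 := hd.symm (f • m) x
  have s3 := hd.symm m x
  have s4 := hd.symm (f • m) (f • x)
  omega

/-- one step of the orbit -/
theorem u_step (hd : GM d) (hF : FP d δ) (hI : Inv G d)
    (h2 : 2 * d x (f • x) ≤ d x (f ^ 2 • x) + 4 * δ) (hl : 6 * δ < d x (f • x)) (n : ℕ) :
    d x (f ^ n • x) + d x (f • x) ≤ d x (f ^ (n + 1) • x) + 6 * δ := by
  induction n with
  | zero =>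
    rw [pow_zero, one_smul, hd.self, Nat.zero_add, pow_one]
    omega
  | succ n ih =>
    have e1 := hF x (f ^ (n + 1) • x) (f ^ n • x) (f ^ (n + 2) • x)
    have e2 := orb_d (f := f) (x0 := x) hI n 2
    have e3 := orb_d (f := f) (x0 := x) hI (n + 1) 1
    have e4 := orb_d' (f := f) (x0 := x) hd hI n 1
    rw [pow_one] at e3 e4
    rw [show n + 1 + 1 = n + 2 by omega] at e3 ⊢
    omega

/-- **Additivity.** -/
theorem u_add (hd : GM d) (hF : FP d δ) (hI : Inv G d)
    (hmin : ∀ y : X, d x (f • x) ≤ d y (f • y)) (hl : 7 * δ + 2 ≤ d x (f • x)) (i j : ℕ) :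
    d x (f ^ i • x) + d x (f ^ j • x) ≤ d x (f ^ (i + j) • x) + 8 * δ := by
  have h2 := u_two hd hF hI hmin (by omega)
  have hs := u_step hd hF hI h2 (by omega)
  rcases j with _ | j
  · rw [pow_zero, one_smul, hd.self]
    simp only [Nat.add_zero]
    omega
  · have e1 := hF x (f ^ (i + 1) • x) (f ^ i • x) (f ^ (i + (j + 1)) • x)
    have e2 := orb_d (f := f) (x0 := x) hI i (j + 1)
    have e3 := orb_d (f := f) (x0 := x) hI (i + 1) j
    have e4 := orb_d' (f := f) (x0 := x) hd hI i 1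
    rw [pow_one] at e4
    rw [show i + 1 + j = i + (j + 1) by omega] at e3
    have e5 := hs i
    have e6 := hs j
    omega

/-- multiples -/
theorem u_lin {B : ℕ}
    (hadd : ∀ i j : ℕ, d x (f ^ i • x) + d x (f ^ j • x) ≤ d x (f ^ (i + j) • x) + B) (m n : ℕ) :
    n * d x (f ^ m • x) ≤ d x ((f ^ m) ^ n • x) + n * B := by
  induction n with
  | zero =>
    rw [Nat.zero_mul]
    exact Nat.zero_le _
  | succ n ih =>
    have h := hadd (m * n) m
    rw [pow_add, pow_mul] at h
    rw [Nat.succ_mul, Nat.succ_mul, pow_succ]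
    omega

end Pool.Agent.MPe54d61.Abs
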