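import Pool.Agent.Lib.MP_e54d61_gt.Abs.Orbit

/-!
# MP_e54d61_gt, Abs, URev: two elements with small displacement from a reversed copy (helper66)

The distances along the orbit `x_i = f ^ i • x` are additive up to `B`, and `g` maps `x, f ^ 2 • x` close to a
geodesic from `x_M` to `x`, in the direction of this geodesic.  Then for two consecutive `e` the element
`(f ^ e)⁻¹ * g` has displacement at most `2 + R + 2 B + 3 δ` at some point.
-/

set_option autoImplicit false

namespace Pool.Agent.MPe54d61.Abs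

variable {X : Type*} {d : X → X → ℕ} {G : Type*} [Group G] [MulAction G X] {x : X} {f : G}
  {δ B R : ℕ}

theorem u_path (hd : GM d) {N : ℕ} (γ : ℕ → X) (hs : ∀ i < N, d (γ i) (γ (i + 1)) ≤ 1) (i : ℕ) :
    ∀ k, i + k ≤ N → d (γ i) (γ (i + k)) ≤ k := by
  intro k
  induction k with
  | zero =>
    intro _
    rw [Nat.add_zero, hd.self]
  | succ k ih =>
    intro hk
    have h1 := ih (by omega)
    have h2 := hs (i + k) (by omega)
    have h3 := hd.tri (γ i) (γ (i + k)) (γ (i + (k + 1)))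
    rw [Nat.add_assoc] at h2
    omega

/-- the element `g` maps the segment from `x` to `f ^ 2 • x` across the copy of this segment under `f ^ e` -/
theorem u_meet (hd : GM d) (hF : FP d δ) (hI : Inv G d)
    (hadd : ∀ i j : ℕ, d x (f ^ i • x) + d x (f ^ j • x) ≤ d x (f ^ (i + j) • x) + B)
    (N e : ℕ) (he : e + 2 ≤ N) (g : G) (h1 : cH d (f ^ N • x) x (g • x) ≤ R)
    (h2 : cH d (f ^ N • x) x (g • f ^ 2 • x) ≤ R)
    (h3 : cP d (f ^ N • x) x (g • x) ≤ cP d (f ^ N • x) x (g • f ^ 2 • x))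
    (h4 : cP d (f ^ N • x) x (g • x) ≤ cP d (f ^ N • x) x (f ^ e • x))
    (h5 : cP d (f ^ N • x) x (f ^ (e + 2) • x) ≤ cP d (f ^ N • x) x (g • f ^ 2 • x)) :
    ∃ y : X, d y (((f ^ e)⁻¹ * g) • y) ≤ 2 + R + B + 3 * δ := by
  obtain ⟨η, g0, g1, g2⟩ := hd.geo x (f ^ 2 • x)
  obtain ⟨W, hW⟩ : ∃ W, W = d x (f ^ 2 • x) := ⟨_, rfl⟩
  rw [← hW] at g1 g2
  obtain ⟨t, ht, ht2⟩ := ivt (N := W) (σ := 4)
    (fun t => cP d (f ^ N • x) x (g • η t) - cP d (f ^ N • x) x (f ^ e • η t)) 0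
    (by
      show cP d (f ^ N • x) x (g • η 0) - cP d (f ^ N • x) x (f ^ e • η 0) ≤ 0
      rw [g0]
      omega)
    (by
      show 0 ≤ cP d (f ^ N • x) x (g • η W) - cP d (f ^ N • x) x (f ^ e • η W)
      rw [g1, ← mul_smul (f ^ e), ← pow_add]
      omega)
    (by omega) (fun i hi => by
      have e1 := cP_lip hd (f ^ N • x) x (g • η i) (g • η (i + 1))
      have e2 := cP_lip hd (f ^ N • x) x (f ^ e • η i) (f ^ e • η (i + 1))
      have e3 := g2 i hi
      rw [hI] at e1 e2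
      rw [abs_le] at e1 e2
      show |(cP d (f ^ N • x) x (g • η i) - cP d (f ^ N • x) x (f ^ e • η i)) -
        (cP d (f ^ N • x) x (g • η (i + 1)) - cP d (f ^ N • x) x (f ^ e • η (i + 1)))| ≤ 4
      rw [abs_le]
      omega)
  have ht3 : |cP d (f ^ N • x) x (g • η t) - cP d (f ^ N • x) x (f ^ e • η t)| ≤ 4 := by
    rw [sub_zero] at ht2
    exact ht2
  refine ⟨η t, ?_⟩
  have k1 : d (η t) (((f ^ e)⁻¹ * g) • η t) = d (f ^ e • η t) (g • η t) := by
    rw [← hI (f ^ e) (η t), smul_smul, mul_inv_cancel_left]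
  rw [k1]
  -- the heights
  have p1 := u_path hd η g2 0 t (by omega)
  have p2 := u_path hd η g2 t (W - t) (by omega)
  rw [Nat.zero_add, g0] at p1
  rw [show t + (W - t) = W by omega, g1] at p2
  have q1 := hd.tri (f ^ N • x) (g • x) (g • η t)
  have q2 := hd.tri (g • η t) (g • f ^ 2 • x) x
  rw [hI] at q1 q2
  have q3 := hd.tri (f ^ N • x) (f ^ (e + 2) • x) (f ^ e • η t)
  have q4 := hd.tri (f ^ e • η t) (f ^ e • x) x
  have q5 : d (f ^ (e + 2) • x) (f ^ e • η t) = d (η t) (f ^ 2 • x) := by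
    rw [pow_add, mul_smul, hI, hd.symm]
  rw [hI] at q4
  have q6 := orb_d' (f := f) (x0 := x) hd hI (e + 2) (N - (e + 2))
  rw [show e + 2 + (N - (e + 2)) = N by omega] at q6
  have q7 := hadd e 2
  have q8 := hadd (e + 2) (N - (e + 2))
  rw [show e + 2 + (N - (e + 2)) = N by omega] at q8
  have u1 := upper hd hF (f ^ N • x) x (g • x) (g • f ^ 2 • x)
  rw [hI, abs_of_nonpos (by omega)] at u1
  have u2 := upper hd hF (f ^ N • x) x (g • η t) (f ^ e • η t)
  have s1 := hd.symm (f ^ N • x) x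
  have s2 := hd.symm (g • η t) (f ^ e • η t)
  have s3 := hd.symm (η t) x
  have s4 := hd.symm (f ^ e • x) x
  unfold cH at h1 h2 u1 u2
  unfold cP at h3 h4 h5 u1
  omega

end Pool.Agent.MPe54d61.Abs
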